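import Pool.Agent.H629R2.EW.Stubs

set_option autoImplicit false

/-! Task CAPH (helper376). -/

namespace Pool.Agent.H629R2.EW

open MeasureTheory Set Filter Topology Pool.Agent.H629R2.EU

namespace CAPHaux

/-- the square of the positive part -/
noncomputable def g (t : ℝ) : ℝ := max t 0 ^ 2

/-- its derivative -/
noncomputable def g' (t : ℝ) : ℝ := 2 * max t 0

theorem g_deriv (t : ℝ) : HasDerivAt g (g' t) t := by
  rcases lt_trichotomy t 0 with h | h | h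
  · have h1 : g =ᶠ[𝓝 t] fun _ => 0 := by
      filter_upwards [eventually_lt_nhds h] with s hs
      simp only [g]
      rw [max_eq_right hs.le]; norm_num
    have h2 : g' t = 0 := by
      simp only [g']
      rw [max_eq_right h.le]; norm_num
    rw [h2]
    exact (hasDerivAt_const t (0 : ℝ)).congr_of_eventuallyEq h1
  · subst h
    have h2 : g' 0 = 0 := by simp [g']
    rw [h2]
    have h0 : g 0 = 0 := by simp [g]
    rw [hasDerivAt_iff_isLittleO_nhds_zero]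
    simp only [zero_add, h0, sub_zero, smul_zero, sub_zero]
    have h3 : (fun t : ℝ => t ^ 2) =o[𝓝 0] fun t : ℝ => t := by
      have := Asymptotics.isLittleO_pow_id (𝕜 := ℝ) (n := 2) (by norm_num)
      simpa using this
    refine Asymptotics.IsBigO.trans_isLittleO ?_ h3
    refine Asymptotics.IsBigO.of_bound 1 (Eventually.of_forall fun s => ?_)
    simp only [g, Real.norm_eq_abs, one_mul]
    rw [abs_of_nonneg (sq_nonneg _), abs_of_nonneg (sq_nonneg _)]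
    rcases le_total s 0 with hs | hs
    · rw [max_eq_right hs]; nlinarith [sq_nonneg s]
    · rw [max_eq_left hs]
  · have h1 : g =ᶠ[𝓝 t] fun s => s ^ 2 := by
      filter_upwards [eventually_gt_nhds h] with s hs
      simp only [g]
      rw [max_eq_left hs.le]
    have h2 : g' t = 2 * t := by
      simp only [g']
      rw [max_eq_left h.le]
    rw [h2]
    have h3 : HasDerivAt (fun s : ℝ => s ^ 2) (2 * t) t := by
      simpa using hasDerivAt_pow 2 t
    exact h3.congr_of_eventuallyEq h1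

theorem g_c1 : ContDiff ℝ 1 g := by
  rw [contDiff_one_iff_deriv]
  refine ⟨fun t => (g_deriv t).differentiableAt, ?_⟩
  have h : deriv g = g' := funext fun t => (g_deriv t).deriv
  rw [h]
  unfold g'
  fun_prop

/-- the correction -/
noncomputable def P (ε : ℝ) (q : ℝ × ℝ) : ℝ := ε * (1 / (1 + q.1) - 1)

theorem P_has (ε : ℝ) (q : ℝ × ℝ) (hq : 0 < q.1) :
    HasFDerivAt (P ε) ((-(ε / (1 + q.1) ^ 2)) • ContinuousLinearMap.fst ℝ ℝ ℝ) q := by
  have h1 : (1 : ℝ) + q.1 ≠ 0 := by positivity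
  have h2 : HasDerivAt (fun t : ℝ => ε * (1 / (1 + t) - 1)) (-(ε / (1 + q.1) ^ 2)) q.1 := by
    have h3 : HasDerivAt (fun t : ℝ => 1 + t) 1 q.1 := (hasDerivAt_id q.1).const_add 1
    have h4 : HasDerivAt (fun t : ℝ => ε * ((1 + t)⁻¹ - 1)) (ε * (-1 / (1 + q.1) ^ 2)) q.1 :=
      ((h3.inv h1).sub_const 1).const_mul ε
    have h5 : (fun t : ℝ => ε * (1 / (1 + t) - 1)) = fun t : ℝ => ε * ((1 + t)⁻¹ - 1) := by
      funext t; rw [one_div]
    rw [h5]
    refine h4.congr_deriv ?_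
    ring
  exact h2.comp_hasFDerivAt q hasFDerivAt_fst

theorem P_dx (ε : ℝ) (q : ℝ × ℝ) (hq : 0 < q.1) : dx (P ε) q = -(ε / (1 + q.1) ^ 2) := by
  unfold dx
  rw [(P_has ε q hq).fderiv]
  simp

theorem P_dy (ε : ℝ) (q : ℝ × ℝ) (hq : 0 < q.1) : dy (P ε) q = 0 := by
  unfold dy
  rw [(P_has ε q hq).fderiv]
  simp

theorem ev_pos (q : ℝ × ℝ) (hq : 0 < q.1) : ∀ᶠ p : ℝ × ℝ in 𝓝 q, 0 < p.1 :=
  (continuous_fst.tendsto q).eventually (eventually_gt_nhds hq)

theorem P_dxx (ε : ℝ) (q : ℝ × ℝ) (hq : 0 < q.1) :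
    dx (dx (P ε)) q = 2 * ε / (1 + q.1) ^ 3 := by
  have h0 : dx (P ε) =ᶠ[𝓝 q] fun p : ℝ × ℝ => -(ε / (1 + p.1) ^ 2) := by
    filter_upwards [ev_pos q hq] with p hp
    exact P_dx ε p hp
  have h1 : (1 : ℝ) + q.1 ≠ 0 := by positivity
  have h2 : HasDerivAt (fun t : ℝ => -(ε / (1 + t) ^ 2)) (2 * ε / (1 + q.1) ^ 3) q.1 := by
    have h3 : HasDerivAt (fun t : ℝ => 1 + t) 1 q.1 := (hasDerivAt_id q.1).const_add 1
    have h4 := (((h3.pow 2).inv (pow_ne_zero 2 h1)).const_mul ε).neg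
    have h5 : (fun t : ℝ => -(ε / (1 + t) ^ 2)) = fun t : ℝ => -(ε * ((1 + t) ^ 2)⁻¹) := by
      funext t; rw [div_eq_mul_inv]
    rw [h5]
    refine HasDerivAt.congr_deriv (f := fun t : ℝ => -(ε * ((1 + t) ^ 2)⁻¹)) h4 ?_
    simp only [Nat.cast_ofNat, Pi.pow_apply, mul_one, Nat.add_one_sub_one, pow_one]
    field_simp
  have h6 : HasFDerivAt (fun p : ℝ × ℝ => -(ε / (1 + p.1) ^ 2))
      ((2 * ε / (1 + q.1) ^ 3) • ContinuousLinearMap.fst ℝ ℝ ℝ) q :=
    h2.comp_hasFDerivAt q hasFDerivAt_fst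
  unfold dx at h0 ⊢
  rw [h0.fderiv_eq, h6.fderiv]
  simp

theorem P_dyy (ε : ℝ) (q : ℝ × ℝ) (hq : 0 < q.1) : dy (dy (P ε)) q = 0 := by
  have h0 : dy (P ε) =ᶠ[𝓝 q] fun _ : ℝ × ℝ => (0 : ℝ) := by
    filter_upwards [ev_pos q hq] with p hp
    exact P_dy ε p hp
  show fderiv ℝ (dy (P ε)) q (0, 1) = 0
  rw [h0.fderiv_eq]
  simp

theorem P_c2 (ε : ℝ) (Ω : Set (ℝ × ℝ)) (h : ∀ q ∈ Ω, 0 < q.1) : ContDiffOn ℝ 2 (P ε) Ω := by
  unfold P
  refine contDiffOn_const.mul (ContDiffOn.sub ?_ contDiffOn_const)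
  refine contDiffOn_const.div (contDiffOn_const.add contDiff_fst.contDiffOn) ?_
  intro q hq
  have := h q hq
  positivity

theorem dx_add {f k : ℝ × ℝ → ℝ} {q : ℝ × ℝ} (hf : DifferentiableAt ℝ f q)
    (hk : DifferentiableAt ℝ k q) : dx (fun p => f p + k p) q = dx f q + dx k q := by
  have h : HasFDerivAt (fun p => f p + k p) (fderiv ℝ f q + fderiv ℝ k q) q :=
    hf.hasFDerivAt.add hk.hasFDerivAt
  unfold dx
  rw [h.fderiv]
  rfl

theorem dy_add {f k : ℝ × ℝ → ℝ} {q : ℝ × ℝ} (hf : DifferentiableAt ℝ f q)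
    (hk : DifferentiableAt ℝ k q) : dy (fun p => f p + k p) q = dy f q + dy k q := by
  have h : HasFDerivAt (fun p => f p + k p) (fderiv ℝ f q + fderiv ℝ k q) q :=
    hf.hasFDerivAt.add hk.hasFDerivAt
  unfold dy
  rw [h.fderiv]
  rfl

theorem dx_c1 {f : ℝ × ℝ → ℝ} {Ω : Set (ℝ × ℝ)} (hΩ : IsOpen Ω) (h : ContDiffOn ℝ 2 f Ω) :
    ContDiffOn ℝ 1 (dx f) Ω :=
  (h.fderiv_of_isOpen hΩ (m := 1) (by norm_num)).clm_apply contDiffOn_const

theorem dy_c1 {f : ℝ × ℝ → ℝ} {Ω : Set (ℝ × ℝ)} (hΩ : IsOpen Ω) (h : ContDiffOn ℝ 2 f Ω) :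
    ContDiffOn ℝ 1 (dy f) Ω :=
  (h.fderiv_of_isOpen hΩ (m := 1) (by norm_num)).clm_apply contDiffOn_const

theorem da {f k : ℝ × ℝ → ℝ} {q : ℝ × ℝ} (v : ℝ × ℝ) (hf : DifferentiableAt ℝ f q)
    (hk : DifferentiableAt ℝ k q) : fderiv ℝ (fun p => g (f p) * k p) q v =
      g' (f q) * fderiv ℝ f q v * k q + g (f q) * fderiv ℝ k q v := by
  have h1 : HasFDerivAt (fun p => g (f p)) (g' (f q) • fderiv ℝ f q) q :=
    (g_deriv (f q)).comp_hasFDerivAt q hf.hasFDerivAt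
  have h2 : HasFDerivAt (fun p => g (f p) * k p)
      (g (f q) • fderiv ℝ k q + k q • (g' (f q) • fderiv ℝ f q)) q := h1.mul hk.hasFDerivAt
  rw [h2.fderiv]
  simp
  ring

end CAPHaux

open CAPHaux in
theorem CAPH_proof (hL : LOC2_stmt) (hQ : LCQ_stmt) : CAPH_stmt := by
  intro u H Ω a1 a2 M hu hnq hΩ hpos hV hH hlap hM ha1 ha12 hout p0
  by_contra hcon
  push Not at hcon
  set ε : ℝ := H (V u p0) / 2 with hε
  have hε0 : 0 < ε := by positivity
  set F : ℝ × ℝ → ℝ := fun q => H q + P ε q with hF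
  have hFc : ContDiffOn ℝ 2 F Ω := hH.add (P_c2 ε Ω hpos)
  have hHd : ∀ q ∈ Ω, DifferentiableAt ℝ H q := fun q hq =>
    (hH.contDiffAt (hΩ.mem_nhds hq)).differentiableAt (by norm_num)
  have hPd : ∀ q ∈ Ω, DifferentiableAt ℝ (P ε) q := fun q hq =>
    (P_has ε q (hpos q hq)).differentiableAt
  have hFd : ∀ q ∈ Ω, DifferentiableAt ℝ F q := fun q hq => (hHd q hq).add (hPd q hq)
  have hFx : ContDiffOn ℝ 1 (dx F) Ω := dx_c1 hΩ hFc
  have hFy : ContDiffOn ℝ 1 (dy F) Ω := dy_c1 hΩ hFc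
  have hHx : ContDiffOn ℝ 1 (dx H) Ω := dx_c1 hΩ hH
  have hHy : ContDiffOn ℝ 1 (dy H) Ω := dy_c1 hΩ hH
  have hPx : ContDiffOn ℝ 1 (dx (P ε)) Ω := dx_c1 hΩ (P_c2 ε Ω hpos)
  have hPy : ContDiffOn ℝ 1 (dy (P ε)) Ω := dy_c1 hΩ (P_c2 ε Ω hpos)
  have hd1 : ∀ {f : ℝ × ℝ → ℝ}, ContDiffOn ℝ 1 f Ω → ∀ q ∈ Ω, DifferentiableAt ℝ f q :=
    fun h q hq => (h.contDiffAt (hΩ.mem_nhds hq)).differentiableAt one_ne_zero
  -- the Laplacian of `F`
  have hlapF : ∀ q ∈ Ω, 0 < dx (dx F) q + dy (dy F) q := by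
    intro q hq
    have e1 : dx F =ᶠ[𝓝 q] fun p => dx H p + dx (P ε) p := by
      filter_upwards [hΩ.mem_nhds hq] with p hp
      exact dx_add (hHd p hp) (hPd p hp)
    have e2 : dy F =ᶠ[𝓝 q] fun p => dy H p + dy (P ε) p := by
      filter_upwards [hΩ.mem_nhds hq] with p hp
      exact dy_add (hHd p hp) (hPd p hp)
    have e3 : dx (dx F) q = dx (dx H) q + dx (dx (P ε)) q := by
      rw [← dx_add (hd1 hHx q hq) (hd1 hPx q hq)]
      show fderiv ℝ (dx F) q (1, 0) = _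
      rw [e1.fderiv_eq]
      rfl
    have e4 : dy (dy F) q = dy (dy H) q + dy (dy (P ε)) q := by
      rw [← dy_add (hd1 hHy q hq) (hd1 hPy q hq)]
      show fderiv ℝ (dy F) q (0, 1) = _
      rw [e2.fderiv_eq]
      rfl
    rw [e3, e4, P_dxx ε q (hpos q hq), P_dyy ε q (hpos q hq)]
    have h1 := hlap q hq
    have h2 : 0 < 2 * ε / (1 + q.1) ^ 3 := by
      have := hpos q hq
      positivity
    linarith
  have hFle : ∀ q ∈ Ω, F q ≤ H q := by
    intro q hq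
    have h1 := hpos q hq
    have h2 : 1 / (1 + q.1) ≤ 1 := by
      rw [div_le_one (by linarith)]; linarith
    have h3 : P ε q ≤ 0 := by
      unfold P
      nlinarith
    simp only [hF]
    linarith
  set a : ℝ × ℝ → ℝ := fun q => g (F q) * dx F q with ha
  set b : ℝ × ℝ → ℝ := fun q => g (F q) * dy F q with hb
  have hac : ContDiffOn ℝ 1 a Ω := (g_c1.comp_contDiffOn (hFc.of_le (by norm_num))).mul hFx
  have hbc : ContDiffOn ℝ 1 b Ω := (g_c1.comp_contDiffOn (hFc.of_le (by norm_num))).mul hFy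
  have hdiv : ∀ q ∈ Ω, dx a q + dy b q = g' (F q) * (dx F q ^ 2 + dy F q ^ 2) +
      g (F q) * (dx (dx F) q + dy (dy F) q) := by
    intro q hq
    have h1 : dx a q = g' (F q) * dx F q * dx F q + g (F q) * dx (dx F) q :=
      da (1, 0) (hFd q hq) (hd1 hFx q hq)
    have h2 : dy b q = g' (F q) * dy F q * dy F q + g (F q) * dy (dy F) q :=
      da (0, 1) (hFd q hq) (hd1 hFy q hq)
    rw [h1, h2]
    ring
  have hg0 : ∀ t, 0 ≤ g t := fun t => sq_nonneg _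
  have hg'0 : ∀ t, 0 ≤ g' t := fun t => by
    unfold g'
    have := le_max_right t 0
    linarith
  set K : ℝ := |M| ^ 3 / 2 with hK
  have hK0 : 0 ≤ K := by positivity
  have hgK : ∀ t, t ≤ M → g t ^ 2 ≤ K * g' t := by
    intro t ht
    unfold g g'
    rcases le_total t 0 with h | h
    · rw [max_eq_right h]; norm_num
    · rw [max_eq_left h]
      have h1 : t ≤ |M| := ht.trans (le_abs_self M)
      have h2 : t ^ 3 ≤ |M| ^ 3 := pow_le_pow_left₀ h h1 3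
      calc (t ^ 2) ^ 2 = t ^ 3 * t := by ring
        _ ≤ |M| ^ 3 * t := mul_le_mul_of_nonneg_right h2 h
        _ = K * (2 * t) := by rw [hK]; ring
  have hloc := fun z (hz : 0 < dx a (V u z) + dy b (V u z)) =>
    hL u a b Ω a1 a2 K hu hΩ hac hbc ha1 ha12 hK0 (fun q hq => by
      rw [hdiv q hq]
      have h1 := hlapF q hq
      have h2 : 0 ≤ g' (F q) * (dx F q ^ 2 + dy F q ^ 2) :=
        mul_nonneg (hg'0 _) (by positivity)
      have h3 : 0 ≤ g (F q) * (dx (dx F) q + dy (dy F) q) := mul_nonneg (hg0 _) h1.le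
      refine ⟨by linarith, ?_⟩
      have h4 : a q ^ 2 + b q ^ 2 = g (F q) ^ 2 * (dx F q ^ 2 + dy F q ^ 2) := by
        simp only [ha, hb]; ring
      rw [h4]
      have h5 := hgK (F q) ((hFle q hq).trans (hM q hq))
      have h6 : 0 ≤ dx F q ^ 2 + dy F q ^ 2 := by positivity
      nlinarith [mul_le_mul_of_nonneg_right h5 h6, mul_nonneg hK0 h3]) (fun q hq hq' => by
      have h1 : F q ≤ 0 := (hFle q hq).trans (hout q hq hq')
      have h2 : g (F q) = 0 := by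
        unfold g
        rw [max_eq_right h1]; norm_num
      simp only [ha, hb, h2, zero_mul, and_self]) hV z hz
  have hz0 : V u p0 ∈ {q | q ∈ Ω ∧ 0 < F q} := by
    refine ⟨hV p0, ?_⟩
    have h1 := hpos _ (hV p0)
    have h2 : 0 < 1 / (1 + (V u p0).1) := by positivity
    simp only [hF, P]
    have h3 : H (V u p0) = 2 * ε := by rw [hε]; ring
    rw [h3]
    nlinarith
  refine hnq (hQ u {q | q ∈ Ω ∧ 0 < F q} hu (fun z hz => hloc z ?_) p0 hz0)
  rw [hdiv _ hz.1]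
  have h1 := hlapF _ hz.1
  have h2 : 0 ≤ g' (F (V u z)) * (dx F (V u z) ^ 2 + dy F (V u z) ^ 2) :=
    mul_nonneg (hg'0 _) (by positivity)
  have h3 : 0 < g (F (V u z)) := by
    unfold g
    rw [max_eq_left hz.2.le]
    exact pow_pos hz.2 2
  have h4 := mul_pos h3 h1
  linarith

end Pool.Agent.H629R2.EW
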