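import Mathlib
import Pool.Agent.H629R2.EU.Defs

set_option autoImplicit false

/-! Entire solutions of `u_11 u_22 = 1`: the Hessian omits only a set of zero capacity.
Statements. -/

namespace Pool.Agent.H629R2.EW

open MeasureTheory Set Pool.Agent.H629R2.EU

/-- The map `(u_11, u_12)`. -/
noncomputable def V (u : ℝ × ℝ → ℝ) (p : ℝ × ℝ) : ℝ × ℝ := (dx (dx u) p, dx (dy u) p)

/-- ENE2: energy inequality for a general vector field `(a, b)` in the target. -/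
def ENE2_stmt : Prop :=
  ∀ (v η a b : ℝ × ℝ → ℝ) (Ω : Set (ℝ × ℝ)) (K : ℝ), ContDiff ℝ 2 v → ContDiff ℝ 1 η →
    HasCompactSupport η → IsOpen Ω → ContDiffOn ℝ 1 a Ω → ContDiffOn ℝ 1 b Ω → 0 ≤ K →
    (∀ p ∈ tsupport η, (dx v p, dy v p) ∈ Ω) →
    (∀ p, η p ≠ 0 →
      0 ≤ (dx a (dx v p, dy v p) + dy b (dx v p, dy v p)) *
          (dx (dy v) p ^ 2 - dx (dx v) p * dy (dy v) p) ∧
      (a (dx v p, dy v p) ^ 2 + b (dx v p, dy v p) ^ 2) *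
          (dx (dx v) p ^ 2 + 2 * dx (dy v) p ^ 2 + dy (dy v) p ^ 2) ≤
        K * ((dx a (dx v p, dy v p) + dy b (dx v p, dy v p)) *
          (dx (dy v) p ^ 2 - dx (dx v) p * dy (dy v) p))) →
    ∫ p, η p ^ 2 * ((dx a (dx v p, dy v p) + dy b (dx v p, dy v p)) *
          (dx (dy v) p ^ 2 - dx (dx v) p * dy (dy v) p)) ≤
      4 * K * ∫ p, (dx η p ^ 2 + dy η p ^ 2)

/-- LOC2: where the divergence of the field `(a, b)` is positive, `u_11` and `u_12` are locally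
independent of the first variable. -/
def LOC2_stmt : Prop :=
  ∀ (u a b : ℝ × ℝ → ℝ) (Ω : Set (ℝ × ℝ)) (a1 a2 K : ℝ), EntireSol u → IsOpen Ω →
    ContDiffOn ℝ 1 a Ω → ContDiffOn ℝ 1 b Ω → 0 < a1 → a1 < a2 → 0 ≤ K →
    (∀ q ∈ Ω, 0 ≤ dx a q + dy b q ∧ a q ^ 2 + b q ^ 2 ≤ K * (dx a q + dy b q)) →
    (∀ q ∈ Ω, (q.1 ≤ a1 ∨ a2 ≤ q.1) → a q = 0 ∧ b q = 0) →
    (∀ p, V u p ∈ Ω) →
    ∀ z0 : ℝ × ℝ, 0 < dx a (V u z0) + dy b (V u z0) →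
      ∃ r : ℝ, 0 < r ∧ ∀ x x' y : ℝ, |x - z0.1| < r → |x' - z0.1| < r → |y - z0.2| < r →
        V u (x, y) = V u (x', y)

/-- LCQ: local independence of the first variable on the preimage of a set `G` under `V u`
implies that `u` is quadratic, if `V u` hits `G`. -/
def LCQ_stmt : Prop :=
  ∀ (u : ℝ × ℝ → ℝ) (G : Set (ℝ × ℝ)), EntireSol u →
    (∀ z : ℝ × ℝ, V u z ∈ G → ∃ r : ℝ, 0 < r ∧ ∀ x x' y : ℝ, |x - z.1| < r → |x' - z.1| < r →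
      |y - z.2| < r → V u (x, y) = V u (x', y)) →
    ∀ z0 : ℝ × ℝ, V u z0 ∈ G → IsQuad u

/-- CAPH: a Phragmén–Lindelöf principle for subharmonic functions of the Hessian. -/
def CAPH_stmt : Prop :=
  ∀ (u H : ℝ × ℝ → ℝ) (Ω : Set (ℝ × ℝ)) (a1 a2 M : ℝ), EntireSol u → ¬ IsQuad u → IsOpen Ω →
    (∀ q ∈ Ω, 0 < q.1) → (∀ p, V u p ∈ Ω) → ContDiffOn ℝ 2 H Ω →
    (∀ q ∈ Ω, 0 ≤ dx (dx H) q + dy (dy H) q) → (∀ q ∈ Ω, H q ≤ M) → 0 < a1 → a1 < a2 →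
    (∀ q ∈ Ω, (q.1 ≤ a1 ∨ a2 ≤ q.1) → H q ≤ 0) → ∀ p, H (V u p) ≤ 0

/-- The logarithmic potential of a measure. -/
noncomputable def U (μ : Measure (ℝ × ℝ)) (z : ℝ × ℝ) : ℝ :=
  -(1 / 2) * ∫ w, Real.log ((z.1 - w.1) ^ 2 + (z.2 - w.2) ^ 2) ∂μ

/-- POTL: the potential is `C^2` and harmonic off the support. -/
def POTL_stmt : Prop :=
  ∀ (μ : Measure (ℝ × ℝ)) (K : Set (ℝ × ℝ)), IsFiniteMeasure μ → IsCompact K → μ Kᶜ = 0 →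
    ContDiffOn ℝ 2 (U μ) Kᶜ ∧ ∀ z ∈ Kᶜ, dx (dx (U μ)) z + dy (dy (U μ)) z = 0

/-- POTM: comparison of the potential near and far. -/
def POTM_stmt : Prop :=
  ∀ (μ : Measure (ℝ × ℝ)) (K : Set (ℝ × ℝ)), IsFiniteMeasure μ → IsCompact K → μ Kᶜ = 0 →
    μ ≠ 0 → (∀ q ∈ K, 0 < q.1) →
    ∃ a1 a2 m : ℝ, 0 < a1 ∧ a1 < a2 ∧
      (∀ z : ℝ × ℝ, (z.1 ≤ a1 ∨ a2 ≤ z.1) → 0 < z.1 → U μ z ≤ m) ∧
      ∃ z0 : ℝ × ℝ, z0 ∉ K ∧ 0 < z0.1 ∧ m < U μ z0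

end Pool.Agent.H629R2.EW
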