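import Mathlib
import Pool.Agent.H629R2.EW.Stubs
import Pool.Agent.H629R2.EU.ENE

set_option autoImplicit false

namespace Pool.Agent.H629R2.EW

open MeasureTheory Set Pool.Agent.H629R2.EU

/-- the gradient map -/
noncomputable def ENE2_q (v : ℝ × ℝ → ℝ) (p : ℝ × ℝ) : ℝ × ℝ := (dx v p, dy v p)

theorem ENE2_qC (v : ℝ × ℝ → ℝ) (hv : ContDiff ℝ 2 v) : ContDiff ℝ 1 (ENE2_q v) :=
  (ENE_d1 (1, 0) v hv).prodMk (ENE_d1 (0, 1) v hv)

/-- continuity of `η c(q)` -/
theorem ENE2_cont (v η c : ℝ × ℝ → ℝ) (Ω : Set (ℝ × ℝ)) (hv : ContDiff ℝ 2 v)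
    (hη : Continuous η) (hΩ : IsOpen Ω) (hc : ContinuousOn c Ω)
    (hq : ∀ p ∈ tsupport η, ENE2_q v p ∈ Ω) : Continuous (fun p => η p * c (ENE2_q v p)) := by
  rw [continuous_iff_continuousAt]
  intro p
  by_cases hp : p ∈ tsupport η
  · have h1 : ContinuousAt c (ENE2_q v p) := hc.continuousAt (hΩ.mem_nhds (hq p hp))
    have h2 : ContinuousAt (ENE2_q v) p := (ENE2_qC v hv).continuous.continuousAt
    exact hη.continuousAt.mul (ContinuousAt.comp h1 h2)
  · have h1 : η =ᶠ[nhds p] 0 := notMem_tsupport_iff_eventuallyEq.1 hp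
    have h2 : (fun p => η p * c (ENE2_q v p)) =ᶠ[nhds p] fun _ => 0 := by
      filter_upwards [h1] with x hx
      rw [hx]
      simp
    exact continuousAt_const.congr h2.symm

theorem ENE2_psiC (v η c : ℝ × ℝ → ℝ) (Ω : Set (ℝ × ℝ)) (hv : ContDiff ℝ 2 v)
    (hη : ContDiff ℝ 1 η) (hΩ : IsOpen Ω) (hc : ContDiffOn ℝ 1 c Ω)
    (hq : ∀ p ∈ tsupport η, ENE2_q v p ∈ Ω) :
    ContDiff ℝ 1 (fun p => η p ^ 2 * c (ENE2_q v p)) := by
  rw [contDiff_iff_contDiffAt]
  intro p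
  by_cases hp : p ∈ tsupport η
  · have h1 : ContDiffAt ℝ 1 c (ENE2_q v p) := hc.contDiffAt (hΩ.mem_nhds (hq p hp))
    have h2 : ContDiffAt ℝ 1 (ENE2_q v) p := (ENE2_qC v hv).contDiffAt
    exact (hη.contDiffAt.pow 2).mul (ContDiffAt.comp p h1 h2)
  · have h1 : η =ᶠ[nhds p] 0 := notMem_tsupport_iff_eventuallyEq.1 hp
    have h2 : (fun p => η p ^ 2 * c (ENE2_q v p)) =ᶠ[nhds p] fun _ => 0 := by
      filter_upwards [h1] with x hx
      rw [hx]
      simp
    exact contDiffAt_const.congr_of_eventuallyEq h2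

/-- the derivative of `ψ = η² c(q)` -/
theorem ENE2_psi (v η c : ℝ × ℝ → ℝ) (Ω : Set (ℝ × ℝ)) (hv : ContDiff ℝ 2 v)
    (hη : ContDiff ℝ 1 η) (hΩ : IsOpen Ω) (hc : ContDiffOn ℝ 1 c Ω)
    (hq : ∀ p ∈ tsupport η, ENE2_q v p ∈ Ω) (p w : ℝ × ℝ) :
    fderiv ℝ (fun q => η q ^ 2 * c (ENE2_q v q)) p w =
      2 * η p * fderiv ℝ η p w * c (ENE2_q v p) + η p ^ 2 *
        (dx c (ENE2_q v p) * fderiv ℝ (dx v) p w + dy c (ENE2_q v p) * fderiv ℝ (dy v) p w) := by
  by_cases hp : p ∈ tsupport η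
  · have h1 : HasFDerivAt η (fderiv ℝ η p) p := (hη.differentiable (by norm_num) p).hasFDerivAt
    have h2 : HasFDerivAt (dx v) (fderiv ℝ (dx v) p) p :=
      ((ENE_d1 (1, 0) v hv).differentiable (by norm_num) p).hasFDerivAt
    have h3 : HasFDerivAt (dy v) (fderiv ℝ (dy v) p) p :=
      ((ENE_d1 (0, 1) v hv).differentiable (by norm_num) p).hasFDerivAt
    have h4 : HasFDerivAt (ENE2_q v) ((fderiv ℝ (dx v) p).prod (fderiv ℝ (dy v) p)) p :=
      h2.prodMk h3
    have h5 : HasFDerivAt c (fderiv ℝ c (ENE2_q v p)) (ENE2_q v p) :=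
      ((hc.contDiffAt (hΩ.mem_nhds (hq p hp))).differentiableAt (by norm_num)).hasFDerivAt
    have h6 := (h1.pow 2).mul (h5.comp p h4)
    have h7 : fderiv ℝ (fun q => η q ^ 2 * c (ENE2_q v q)) p = _ := h6.fderiv
    rw [h7]
    have h8 : ∀ s t : ℝ, fderiv ℝ c (ENE2_q v p) (s, t) =
        dx c (ENE2_q v p) * s + dy c (ENE2_q v p) * t := by
      intro s t
      have : ((s, t) : ℝ × ℝ) = s • ((1, 0) : ℝ × ℝ) + t • ((0, 1) : ℝ × ℝ) := by simp
      rw [this, map_add, map_smul, map_smul]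
      simp only [dx, dy, smul_eq_mul]
      ring
    have h9 : (fderiv ℝ c (ENE2_q v p)) ((fderiv ℝ (dx v) p) w, (fderiv ℝ (dy v) p) w) =
        dx c (ENE2_q v p) * fderiv ℝ (dx v) p w + dy c (ENE2_q v p) * fderiv ℝ (dy v) p w :=
      h8 _ _
    simp
    rw [h9]
    ring
  · have h1 : η =ᶠ[nhds p] 0 := notMem_tsupport_iff_eventuallyEq.1 hp
    have h2 : (fun p => η p ^ 2 * c (ENE2_q v p)) =ᶠ[nhds p] fun _ => 0 := by
      filter_upwards [h1] with x hx
      rw [hx]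
      simp
    have h3 : η p = 0 := h1.eq_of_nhds
    rw [h2.fderiv_eq, h3]
    simp

/-- pointwise inequality -/
theorem ENE2_pt (e ex ey a b W K x z y : ℝ) (hK : 0 ≤ K)
    (h : e ≠ 0 → 0 ≤ W ∧ (a ^ 2 + b ^ 2) * (x ^ 2 + 2 * z ^ 2 + y ^ 2) ≤ K * W) :
    -(2 * e * (b * (ex * z - ey * x) - a * (ex * y - ey * z))) ≤
      (1 / 2) * (e ^ 2 * W) + 2 * K * (ex ^ 2 + ey ^ 2) := by
  have hg : 0 ≤ ex ^ 2 + ey ^ 2 := by positivity
  by_cases he : e = 0
  · subst he
    have : 0 ≤ 2 * K * (ex ^ 2 + ey ^ 2) := by positivity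
    simpa using this
  obtain ⟨hW, hP⟩ := h he
  set X := b * (ex * z - ey * x) - a * (ex * y - ey * z) with hX
  have hX2 : X ^ 2 ≤ K * W * (ex ^ 2 + ey ^ 2) := by
    have h1 : X ^ 2 ≤ ((b * z - a * y) ^ 2 + (a * z - b * x) ^ 2) * (ex ^ 2 + ey ^ 2) := by
      have : X = ex * (b * z - a * y) + ey * (a * z - b * x) := by rw [hX]; ring
      rw [this]
      nlinarith [sq_nonneg (ex * (a * z - b * x) - ey * (b * z - a * y))]
    have h2 : (b * z - a * y) ^ 2 + (a * z - b * x) ^ 2 ≤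
        (a ^ 2 + b ^ 2) * (x ^ 2 + 2 * z ^ 2 + y ^ 2) := by
      nlinarith [sq_nonneg (b * y + a * z), sq_nonneg (a * x + b * z)]
    calc X ^ 2 ≤ ((b * z - a * y) ^ 2 + (a * z - b * x) ^ 2) * (ex ^ 2 + ey ^ 2) := h1
      _ ≤ (K * W) * (ex ^ 2 + ey ^ 2) := mul_le_mul_of_nonneg_right (h2.trans hP) hg
  have hr : 0 ≤ (1 / 2) * (e ^ 2 * W) + 2 * K * (ex ^ 2 + ey ^ 2) := by positivity
  have h2 : (2 * e * X) ^ 2 ≤ ((1 / 2) * (e ^ 2 * W) + 2 * K * (ex ^ 2 + ey ^ 2)) ^ 2 := by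
    have h3 : (2 * e * X) ^ 2 ≤ 4 * e ^ 2 * (K * W * (ex ^ 2 + ey ^ 2)) := by
      have := mul_le_mul_of_nonneg_left hX2 (show (0:ℝ) ≤ 4 * e ^ 2 by positivity)
      calc (2 * e * X) ^ 2 = 4 * e ^ 2 * X ^ 2 := by ring
        _ ≤ _ := this
    nlinarith [sq_nonneg ((1 / 2) * (e ^ 2 * W) - 2 * K * (ex ^ 2 + ey ^ 2))]
  have h4 : |2 * e * X| ≤ (1 / 2) * (e ^ 2 * W) + 2 * K * (ex ^ 2 + ey ^ 2) :=
    abs_le_of_sq_le_sq h2 hr
  exact (neg_le_abs _).trans h4

theorem ENE2_proof (hN : Pool.Agent.H629R2.EU.NUL_stmt) : ENE2_stmt := by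
  intro v η a b Ω K hv hη hηc hΩ ha hb hK hq hyp
  have hvx : ContDiff ℝ 1 (dx v) := ENE_d1 (1, 0) v hv
  have hvy : ContDiff ℝ 1 (dy v) := ENE_d1 (0, 1) v hv
  have hq' : ∀ p ∈ tsupport η, ENE2_q v p ∈ Ω := hq
  have hψ1 := ENE2_psiC v η b Ω hv hη hΩ hb hq'
  have hψ2 := ENE2_psiC v η a Ω hv hη hΩ ha hq'
  have hη2 : HasCompactSupport (fun q => η q ^ 2) := by
    have : (fun q => η q ^ 2) = (fun q => η q * η q) := funext fun q => sq _
    rw [this]
    exact hηc.mul_right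
  have hψc1 : HasCompactSupport (fun q => η q ^ 2 * b (ENE2_q v q)) := hη2.mul_right
  have hψc2 : HasCompactSupport (fun q => η q ^ 2 * a (ENE2_q v q)) := hη2.mul_right
  have hnul1 := hN _ _ hψ1 hψc1 hvx
  have hnul2 := hN _ _ hψ2 hψc2 hvy
  -- the functions
  have cx : Continuous (dx η) := ENE_d0 (1, 0) η hη
  have cy : Continuous (dy η) := ENE_d0 (0, 1) η hη
  have cxx : Continuous (dx (dx v)) := ENE_d0 (1, 0) _ hvx
  have cxy : Continuous (dx (dy v)) := ENE_d0 (1, 0) _ hvy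
  have cyy : Continuous (dy (dy v)) := ENE_d0 (0, 1) _ hvy
  have cη := hη.continuous
  have cDa : ContinuousOn (dx a) Ω :=
    (ha.continuousOn_fderiv_of_isOpen hΩ (by norm_num)).clm_apply continuousOn_const
  have cDb : ContinuousOn (dy b) Ω :=
    (hb.continuousOn_fderiv_of_isOpen hΩ (by norm_num)).clm_apply continuousOn_const
  have cdiv : Continuous (fun p => η p * (dx a (ENE2_q v p) + dy b (ENE2_q v p))) :=
    ENE2_cont v η (fun z => dx a z + dy b z) Ω hv cη hΩ (cDa.add cDb) hq'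
  have ca : Continuous (fun p => η p * a (ENE2_q v p)) :=
    ENE2_cont v η a Ω hv cη hΩ ha.continuousOn hq'
  have cb : Continuous (fun p => η p * b (ENE2_q v p)) :=
    ENE2_cont v η b Ω hv cη hΩ hb.continuousOn hq'
  have e1 : ∀ p, dx (fun q => η q ^ 2 * b (ENE2_q v q)) p =
      2 * η p * dx η p * b (ENE2_q v p) + η p ^ 2 *
        (dx b (ENE2_q v p) * dx (dx v) p + dy b (ENE2_q v p) * dx (dy v) p) :=
    fun p => ENE2_psi v η b Ω hv hη hΩ hb hq' p (1, 0)
  have e2 : ∀ p, dy (fun q => η q ^ 2 * b (ENE2_q v q)) p =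
      2 * η p * dy η p * b (ENE2_q v p) + η p ^ 2 *
        (dx b (ENE2_q v p) * dx (dy v) p + dy b (ENE2_q v p) * dy (dy v) p) := by
    intro p
    rw [ENE_sym v hv p]
    exact ENE2_psi v η b Ω hv hη hΩ hb hq' p (0, 1)
  have e3 : ∀ p, dx (fun q => η q ^ 2 * a (ENE2_q v q)) p =
      2 * η p * dx η p * a (ENE2_q v p) + η p ^ 2 *
        (dx a (ENE2_q v p) * dx (dx v) p + dy a (ENE2_q v p) * dx (dy v) p) :=
    fun p => ENE2_psi v η a Ω hv hη hΩ ha hq' p (1, 0)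
  have e4 : ∀ p, dy (fun q => η q ^ 2 * a (ENE2_q v q)) p =
      2 * η p * dy η p * a (ENE2_q v p) + η p ^ 2 *
        (dx a (ENE2_q v p) * dx (dy v) p + dy a (ENE2_q v p) * dy (dy v) p) := by
    intro p
    rw [ENE_sym v hv p]
    exact ENE2_psi v η a Ω hv hη hΩ ha hq' p (0, 1)
  -- integrable functions
  set F : ℝ × ℝ → ℝ := fun p => η p ^ 2 * ((dx a (ENE2_q v p) + dy b (ENE2_q v p)) *
        (dx (dy v) p ^ 2 - dx (dx v) p * dy (dy v) p)) with hF
  set G : ℝ × ℝ → ℝ := fun p => -(2 * η p * (b (ENE2_q v p) *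
        (dx η p * dx (dy v) p - dy η p * dx (dx v) p) - a (ENE2_q v p) *
        (dx η p * dy (dy v) p - dy η p * dx (dy v) p))) with hG
  set H : ℝ × ℝ → ℝ := fun p => dx η p ^ 2 + dy η p ^ 2 with hH
  have iF : Integrable F := by
    apply Continuous.integrable_of_hasCompactSupport
    · have : F = fun p => η p * ((η p * (dx a (ENE2_q v p) + dy b (ENE2_q v p))) *
        (dx (dy v) p ^ 2 - dx (dx v) p * dy (dy v) p)) := by
        funext p
        simp only [hF]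
        ring
      rw [this]
      exact cη.mul (cdiv.mul ((cxy.pow 2).sub (cxx.mul cyy)))
    · exact hη2.mul_right
  have iG : Integrable G := by
    apply Continuous.integrable_of_hasCompactSupport
    · have : G = fun p => -(2 * ((η p * b (ENE2_q v p)) *
        (dx η p * dx (dy v) p - dy η p * dx (dx v) p) - (η p * a (ENE2_q v p)) *
        (dx η p * dy (dy v) p - dy η p * dx (dy v) p))) := by
        funext p
        simp only [hG]
        ring
      rw [this]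
      exact (continuous_const.mul ((cb.mul ((cx.mul cxy).sub (cy.mul cxx))).sub
        (ca.mul ((cx.mul cyy).sub (cy.mul cxy))))).neg
    · have : G = fun p => η p * (-(2 * (b (ENE2_q v p) *
        (dx η p * dx (dy v) p - dy η p * dx (dx v) p) - a (ENE2_q v p) *
        (dx η p * dy (dy v) p - dy η p * dx (dy v) p)))) := by
        funext p
        simp only [hG]
        ring
      rw [this]
      exact hηc.mul_right
  have hdxη : HasCompactSupport (dx η) := hηc.fderiv_apply (𝕜 := ℝ) (1, 0)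
  have hdyη : HasCompactSupport (dy η) := hηc.fderiv_apply (𝕜 := ℝ) (0, 1)
  have iH : Integrable H := by
    apply Continuous.integrable_of_hasCompactSupport
    · exact (cx.pow 2).add (cy.pow 2)
    · have h1 : HasCompactSupport (fun p => dx η p ^ 2) := by
        have : (fun q => dx η q ^ 2) = (fun q => dx η q * dx η q) := funext fun q => sq _
        rw [this]
        exact hdxη.mul_right
      have h2 : HasCompactSupport (fun p => dy η p ^ 2) := by
        have : (fun q => dy η q ^ 2) = (fun q => dy η q * dy η q) := funext fun q => sq _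
        rw [this]
        exact hdyη.mul_right
      exact h1.add h2
  have iAB : ∀ (ψ B : ℝ × ℝ → ℝ) (w w' : ℝ × ℝ), ContDiff ℝ 1 ψ → HasCompactSupport ψ →
      ContDiff ℝ 1 B → Integrable (fun p => fderiv ℝ ψ p w * fderiv ℝ B p w') := by
    intro ψ B w w' h1 h2 h3
    apply Continuous.integrable_of_hasCompactSupport
    · exact (ENE_d0 w _ h1).mul (ENE_d0 w' _ h3)
    · exact (h2.fderiv_apply (𝕜 := ℝ) w).mul_right
  have hFG : ∫ p, F p = ∫ p, G p := by
    have i1 : Integrable (fun p => dx (fun q => η q ^ 2 * b (ENE2_q v q)) p * dy (dx v) p) :=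
      iAB _ _ (1, 0) (0, 1) hψ1 hψc1 hvx
    have i2 : Integrable (fun p => dy (fun q => η q ^ 2 * b (ENE2_q v q)) p * dx (dx v) p) :=
      iAB _ _ (0, 1) (1, 0) hψ1 hψc1 hvx
    have i3 : Integrable (fun p => dx (fun q => η q ^ 2 * a (ENE2_q v q)) p * dy (dy v) p) :=
      iAB _ _ (1, 0) (0, 1) hψ2 hψc2 hvy
    have i4 : Integrable (fun p => dy (fun q => η q ^ 2 * a (ENE2_q v q)) p * dx (dy v) p) :=
      iAB _ _ (0, 1) (1, 0) hψ2 hψc2 hvy
    have h1 : ∫ p, (dx (fun q => η q ^ 2 * b (ENE2_q v q)) p * dy (dx v) p -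
        dy (fun q => η q ^ 2 * b (ENE2_q v q)) p * dx (dx v) p) = 0 := by
      rw [integral_sub i1 i2, hnul1, sub_self]
    have h1' : ∫ p, (dx (fun q => η q ^ 2 * a (ENE2_q v q)) p * dy (dy v) p -
        dy (fun q => η q ^ 2 * a (ENE2_q v q)) p * dx (dy v) p) = 0 := by
      rw [integral_sub i3 i4, hnul2, sub_self]
    have h2 : ∫ p, (F p - G p) = 0 := by
      have h3 : ∫ p, (F p - G p) =
          ∫ p, ((dx (fun q => η q ^ 2 * b (ENE2_q v q)) p * dy (dx v) p -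
            dy (fun q => η q ^ 2 * b (ENE2_q v q)) p * dx (dx v) p) -
            (dx (fun q => η q ^ 2 * a (ENE2_q v q)) p * dy (dy v) p -
            dy (fun q => η q ^ 2 * a (ENE2_q v q)) p * dx (dy v) p)) := by
        refine integral_congr_ae (Filter.Eventually.of_forall (fun p => ?_))
        simp only [hF, hG]
        rw [e1, e2, e3, e4, ← ENE_sym v hv p]
        ring
      have i12 : Integrable (fun p => dx (fun q => η q ^ 2 * b (ENE2_q v q)) p * dy (dx v) p -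
          dy (fun q => η q ^ 2 * b (ENE2_q v q)) p * dx (dx v) p) := i1.sub i2
      have i34 : Integrable (fun p => dx (fun q => η q ^ 2 * a (ENE2_q v q)) p * dy (dy v) p -
          dy (fun q => η q ^ 2 * a (ENE2_q v q)) p * dx (dy v) p) := i3.sub i4
      rw [h3, integral_sub i12 i34, h1, h1', sub_zero]
    rw [integral_sub iF iG] at h2
    linarith
  have hpt : ∀ p, G p ≤ (1 / 2) * F p + 2 * K * H p := by
    intro p
    exact ENE2_pt (η p) (dx η p) (dy η p) (a (ENE2_q v p)) (b (ENE2_q v p))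
      ((dx a (ENE2_q v p) + dy b (ENE2_q v p)) *
        (dx (dy v) p ^ 2 - dx (dx v) p * dy (dy v) p)) K
      (dx (dx v) p) (dx (dy v) p) (dy (dy v) p) hK (hyp p)
  have hint : ∫ p, G p ≤ (1 / 2) * (∫ p, F p) + 2 * K * (∫ p, H p) := by
    calc ∫ p, G p ≤ ∫ p, ((1 / 2) * F p + 2 * K * H p) :=
          integral_mono iG ((iF.const_mul _).add (iH.const_mul _)) hpt
      _ = _ := by
        rw [integral_add (iF.const_mul _) (iH.const_mul _), integral_const_mul,
          integral_const_mul]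
  have hfin : ∫ p, F p ≤ 4 * K * ∫ p, H p := by
    rw [← hFG] at hint
    linarith
  exact hfin

end Pool.Agent.H629R2.EW
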