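import Pool.Agent.H629R2.EW.Stubs
import Pool.Agent.H629R2.EU.Stubs
import Pool.Agent.H629R2.EU.CAL
import Pool.Agent.H629R2.EU.GLO

set_option autoImplicit false

/-! Task LCQ (helper376). -/

namespace Pool.Agent.H629R2.EW

open MeasureTheory Set Pool.Agent.H629R2.EU

namespace LCQaux

theorem lin_on (f f' : ℝ → ℝ) (c r k : ℝ) (h : ∀ t, |t - c| < r → HasDerivAt f (f' t) t)
    (hk : ∀ t, |t - c| < r → f' t = k) (s t : ℝ) (hs : |s - c| < r) (ht : |t - c| < r) :
    f t - f s = k * (t - s) := by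
  have h1 : ∀ x ∈ Metric.ball c r, HasDerivWithinAt (fun t => f t - k * t) (f' x - k * 1)
      (Metric.ball c r) x := by
    intro x hx
    have hx' : |x - c| < r := by simpa [Real.dist_eq] using hx
    exact ((h x hx').sub ((hasDerivAt_id x).const_mul k)).hasDerivWithinAt
  have h2 : ∀ x ∈ Metric.ball c r, ‖f' x - k * 1‖ ≤ 0 := by
    intro x hx
    have hx' : |x - c| < r := by simpa [Real.dist_eq] using hx
    rw [hk x hx', mul_one, sub_self, norm_zero]
  have h3 := (convex_ball c r).norm_image_sub_le_of_norm_hasDerivWithin_le h1 h2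
    (show s ∈ Metric.ball c r by simpa [Real.dist_eq] using hs)
    (show t ∈ Metric.ball c r by simpa [Real.dist_eq] using ht)
  rw [zero_mul] at h3
  have h4 : f t - k * t - (f s - k * s) = 0 := norm_le_zero_iff.mp h3
  linarith

theorem hd_x {g : ℝ × ℝ → ℝ} (hg : Differentiable ℝ g) (x y : ℝ) :
    HasDerivAt (fun t => g (t, y)) (dx g (x, y)) x := by
  have h1 : HasDerivAt (fun t : ℝ => (t, y)) ((1 : ℝ), (0 : ℝ)) x :=
    (hasDerivAt_id x).prodMk (hasDerivAt_const x y)
  exact (hg (x, y)).hasFDerivAt.comp_hasDerivAt x h1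

theorem hd_y {g : ℝ × ℝ → ℝ} (hg : Differentiable ℝ g) (x y : ℝ) :
    HasDerivAt (fun t => g (x, t)) (dy g (x, y)) y := by
  have h1 : HasDerivAt (fun t : ℝ => (x, t)) ((0 : ℝ), (1 : ℝ)) y :=
    (hasDerivAt_const y x).prodMk (hasDerivAt_id y)
  exact (hg (x, y)).hasFDerivAt.comp_hasDerivAt y h1

end LCQaux

open LCQaux in
theorem LCQ_proof (hQ : QUA_stmt) : LCQ_stmt := by
  intro u G hu hloc z0 hz0
  obtain ⟨hC, h11, h22, hprod⟩ := hu
  have hdx1 : ContDiff ℝ 1 (dx u) := GLOaux.dx_c1 hC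
  have hdy1 : ContDiff ℝ 1 (dy u) := GLOaux.dy_c1 hC
  have hdxd : Differentiable ℝ (dx u) := hdx1.differentiable one_ne_zero
  have hdyd : Differentiable ℝ (dy u) := hdy1.differentiable one_ne_zero
  have hsym : ∀ p, dx (dy u) p = dy (dx u) p := CAL_sym u hC
  have hc1 : Continuous (dx (dx u)) := GLOaux.dx_c0 hdx1
  have hc2 : Continuous (dx (dy u)) := GLOaux.dx_c0 hdy1
  have h22f : ∀ p, dy (dy u) p = (dx (dx u) p)⁻¹ := fun p => eq_inv_of_mul_eq_one_right (hprod p)
  -- local constancy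
  have hconst : ∀ z : ℝ × ℝ, V u z ∈ G → ∃ r : ℝ, 0 < r ∧ ∀ w : ℝ × ℝ, |w.1 - z.1| < r →
      |w.2 - z.2| < r → V u w = V u z := by
    intro z hz
    obtain ⟨r, hr, h⟩ := hloc z hz
    have hz1 : |z.1 - z.1| < r := by simpa using hr
    have hz2 : |z.2 - z.2| < r := by simpa using hr
    have hx2 : |(z.1 + r / 2) - z.1| < r := by
      rw [add_sub_cancel_left, abs_of_pos (by positivity)]; linarith
    -- `u_11` and `u_12` do not depend on `x` in the box
    have hA : ∀ x y, |x - z.1| < r → |y - z.2| < r → dx (dx u) (x, y) = dx (dx u) (z.1, y) :=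
      fun x y hx hy => congrArg Prod.fst (h x z.1 y hx hz1 hy)
    have hB : ∀ x y, |x - z.1| < r → |y - z.2| < r → dx (dy u) (x, y) = dx (dy u) (z.1, y) :=
      fun x y hx hy => congrArg Prod.snd (h x z.1 y hx hz1 hy)
    have hφ : ∀ y, |y - z.2| < r → dx u (z.1 + r / 2, y) - dx u (z.1, y) =
        dx (dx u) (z.1, y) * (r / 2) := by
      intro y hy
      have h1 := lin_on (fun t => dx u (t, y)) (fun t => dx (dx u) (t, y)) z.1 r
        (dx (dx u) (z.1, y)) (fun t _ => hd_x hdxd t y) (fun t ht => hA t y ht hy) z.1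
        (z.1 + r / 2) hz1 hx2
      simpa using h1
    have hψ : ∀ y, |y - z.2| < r → dy u (z.1 + r / 2, y) - dy u (z.1, y) =
        dx (dy u) (z.1, y) * (r / 2) := by
      intro y hy
      have h1 := lin_on (fun t => dy u (t, y)) (fun t => dx (dy u) (t, y)) z.1 r
        (dx (dy u) (z.1, y)) (fun t _ => hd_x hdyd t y) (fun t ht => hB t y ht hy) z.1
        (z.1 + r / 2) hz1 hx2
      simpa using h1
    have hAc : ∀ y, |y - z.2| < r → dx (dx u) (z.1, y) = dx (dx u) (z.1, z.2) := by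
      intro y hy
      have h1 := lin_on (fun t => dx u (z.1 + r / 2, t) - dx u (z.1, t))
        (fun t => dy (dx u) (z.1 + r / 2, t) - dy (dx u) (z.1, t)) z.2 r 0
        (fun t _ => (hd_y hdxd (z.1 + r / 2) t).sub (hd_y hdxd z.1 t))
        (fun t ht => by
          rw [← hsym, ← hsym, hB (z.1 + r / 2) t hx2 ht, sub_self]) z.2 y hz2 hy
      rw [hφ y hy, hφ z.2 hz2] at h1
      have hr' : r / 2 ≠ 0 := by positivity
      have h2 : (dx (dx u) (z.1, y) - dx (dx u) (z.1, z.2)) * (r / 2) = 0 := by linarith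
      rcases mul_eq_zero.mp h2 with h3 | h3
      · linarith
      · exact absurd h3 hr'
    have hBc : ∀ y, |y - z.2| < r → dx (dy u) (z.1, y) = dx (dy u) (z.1, z.2) := by
      intro y hy
      have h1 := lin_on (fun t => dy u (z.1 + r / 2, t) - dy u (z.1, t))
        (fun t => dy (dy u) (z.1 + r / 2, t) - dy (dy u) (z.1, t)) z.2 r 0
        (fun t _ => (hd_y hdyd (z.1 + r / 2) t).sub (hd_y hdyd z.1 t))
        (fun t ht => by
          rw [h22f, h22f, hA (z.1 + r / 2) t hx2 ht, sub_self]) z.2 y hz2 hy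
      rw [hψ y hy, hψ z.2 hz2] at h1
      have hr' : r / 2 ≠ 0 := by positivity
      have h2 : (dx (dy u) (z.1, y) - dx (dy u) (z.1, z.2)) * (r / 2) = 0 := by linarith
      rcases mul_eq_zero.mp h2 with h3 | h3
      · linarith
      · exact absurd h3 hr'
    refine ⟨r, hr, fun w hw1 hw2 => ?_⟩
    obtain ⟨x, y⟩ := w
    obtain ⟨z1, z2⟩ := z
    refine Prod.ext ?_ ?_
    · exact (hA x y hw1 hw2).trans (hAc y hw2)
    · exact (hB x y hw1 hw2).trans (hBc y hw2)
  set Z : Set (ℝ × ℝ) := {p | dx (dx u) p = dx (dx u) z0 ∧ dx (dy u) p = dx (dy u) z0} with hZ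
  have hclosed : IsClosed Z :=
    (isClosed_eq hc1 continuous_const).inter (isClosed_eq hc2 continuous_const)
  have hopen : IsOpen Z := by
    rw [Metric.isOpen_iff]
    intro z hz
    have hVz : V u z = V u z0 := Prod.ext hz.1 hz.2
    obtain ⟨r, hr, h⟩ := hconst z (by rw [hVz]; exact hz0)
    refine ⟨r, hr, fun w hw => ?_⟩
    rw [Metric.mem_ball, Prod.dist_eq, max_lt_iff, Real.dist_eq, Real.dist_eq] at hw
    have e := h w hw.1 hw.2
    exact ⟨(congrArg Prod.fst e).trans hz.1, (congrArg Prod.snd e).trans hz.2⟩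
  have huniv : Z = univ := IsClopen.eq_univ ⟨hclosed, hopen⟩ ⟨z0, rfl, rfl⟩
  have hall : ∀ p, p ∈ Z := fun p => by rw [huniv]; exact mem_univ p
  refine hQ u (dx (dx u) z0) (dx (dy u) z0) ((dx (dx u) z0)⁻¹) hC (fun p => (hall p).1)
    (fun p => (hall p).2) (fun p => ?_)
  rw [h22f, (hall p).1]

end Pool.Agent.H629R2.EW
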