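import Mathlib
import Pool.Agent.H629R2.EU.Stubs
import Pool.Agent.H629R2.EU.LOC
import Pool.Agent.H629R2.EW.Stubs

set_option autoImplicit false

/-! LOC2: local independence of the first variable where the divergence is positive. -/

namespace Pool.Agent.H629R2.EW

open MeasureTheory Set Pool.Agent.H629R2.EU

namespace LOC2aux

open Pool.Agent.H629R2.EU.LOCaux

theorem ptw3 (p p' w w' h c a1 a2 : ℝ) (ha1 : 0 < a1) (hp : a1 / 2 ≤ p) (hp' : a1 / 2 ≤ p')
    (hq : p ≤ a2 + 1) (hq' : p' ≤ a2 + 1) (h1 : p * w = 1) (h2 : p' * w' = 1) :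
    ((p' - p) / h) ^ 2 + 2 * c ^ 2 + ((w' - w) / h) ^ 2 ≤
      ((a2 + 1) ^ 2 + 2 + 4 / a1 ^ 2) * (c ^ 2 - (p' - p) / h * ((w' - w) / h)) := by
  have hp0 : 0 < p := by linarith
  have hp0' : 0 < p' := by linarith
  have hs : 0 < p * p' := mul_pos hp0 hp0'
  have hY : (w' - w) / h = -((p' - p) / h) / (p * p') := by
    have hw : w = 1 / p := by field_simp; linarith
    have hw' : w' = 1 / p' := by field_simp; linarith
    rw [hw, hw']
    by_cases hh : h = 0
    · simp [hh]
    · field_simp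
      ring
  set X := (p' - p) / h with hX
  set Z := X ^ 2 / (p * p') with hZ
  have hZ0 : 0 ≤ Z := by positivity
  have e1 : X * ((w' - w) / h) = -Z := by rw [hY, hZ]; ring
  have e2 : X ^ 2 = (p * p') * Z := by rw [hZ]; field_simp
  have e3 : ((w' - w) / h) ^ 2 = Z * (1 / (p * p')) := by rw [hY, hZ]; ring
  rw [e1, e3, e2]
  have b1 : p * p' ≤ (a2 + 1) ^ 2 := by nlinarith
  have b2 : 1 / (p * p') ≤ 4 / a1 ^ 2 := by
    rw [div_le_div_iff₀ hs (by positivity)]
    nlinarith
  have t1 : (p * p') * Z ≤ (a2 + 1) ^ 2 * Z := mul_le_mul_of_nonneg_right b1 hZ0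
  have t2 : Z * (1 / (p * p')) ≤ 4 / a1 ^ 2 * Z := by
    rw [mul_comm]; exact mul_le_mul_of_nonneg_right b2 hZ0
  have t3 : 0 ≤ ((a2 + 1) ^ 2 + 4 / a1 ^ 2) * c ^ 2 := by positivity
  nlinarith

end LOC2aux

open LOC2aux Pool.Agent.H629R2.EU.LOCaux in
theorem LOC2_proof (hC : CUT_stmt) (hE : ENE2_stmt) (hU : UNI_stmt) (hV : UNC_stmt)
    (hA : CAL_stmt) (hT : TEL_stmt) : LOC2_stmt := by
  intro u a b Ω a1 a2 K hu hΩ haΩ hbΩ ha1 ha12 hK hdiv hzero hVΩ z0 hz0
  have hu2 := hu.1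
  have hcal := hA u 1 hu2 one_ne_zero
  have hdxu : ContDiff ℝ 1 (dx u) := hcal.2.2.1
  have hdyu : ContDiff ℝ 1 (dy u) := hcal.2.2.2.1
  have hc11 : Continuous (dx (dx u)) := dx_cont _ hdxu
  have hc12 : Continuous (dx (dy u)) := dx_cont _ hdyu
  have hVc : Continuous (V u) := hc11.prodMk hc12
  -- the divergence
  set dv : ℝ × ℝ → ℝ := fun q => dx a q + dy b q with hdv
  have hdvc : ContinuousOn dv Ω := by
    have h1 : ContinuousOn (fderiv ℝ a) Ω := haΩ.continuousOn_fderiv_of_isOpen hΩ le_rfl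
    have h2 : ContinuousOn (fderiv ℝ b) Ω := hbΩ.continuousOn_fderiv_of_isOpen hΩ le_rfl
    rw [hdv]
    unfold dx dy
    exact (h1.clm_apply continuousOn_const).add (h2.clm_apply continuousOn_const)
  set c := dv (V u z0) / 2 with hc
  have hcp : 0 < c := by
    rw [hc]
    exact half_pos hz0
  have hNopen : IsOpen (Ω ∩ dv ⁻¹' (Ioi c)) := hdvc.isOpen_inter_preimage hΩ isOpen_Ioi
  have hNmem : V u z0 ∈ Ω ∩ dv ⁻¹' (Ioi c) := by
    refine ⟨hVΩ z0, ?_⟩
    show c < dv (V u z0)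
    rw [hc]
    exact half_lt_self hz0
  obtain ⟨ρ, hρ, hρb⟩ := Metric.isOpen_iff.1 hNopen _ hNmem
  -- the box
  obtain ⟨r, hr, hbox⟩ : ∃ r : ℝ, 0 < r ∧ ∀ p ∈ Icc (z0.1 - r) (z0.1 + r) ×ˢ
      Icc (z0.2 - r) (z0.2 + r), dist (V u p) (V u z0) < ρ / 2 := by
    have hopen : IsOpen {p | dist (V u p) (V u z0) < ρ / 2} :=
      isOpen_lt (hVc.dist continuous_const) continuous_const
    have hmem : z0 ∈ {p | dist (V u p) (V u z0) < ρ / 2} := by
      show dist (V u z0) (V u z0) < ρ / 2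
      rw [dist_self]; linarith
    obtain ⟨r0, hr0, hb⟩ := Metric.isOpen_iff.1 hopen z0 hmem
    refine ⟨r0 / 2, by positivity, ?_⟩
    rintro ⟨x, y⟩ ⟨⟨h1, h2⟩, h3, h4⟩
    apply hb
    rw [Metric.mem_ball, Prod.dist_eq, Real.dist_eq, Real.dist_eq]
    simp only at h1 h2 h3 h4 ⊢
    apply max_lt
    · rw [abs_lt]; constructor <;> linarith
    · rw [abs_lt]; constructor <;> linarith
  set S := Icc (z0.1 - r) (z0.1 + r) ×ˢ Icc (z0.2 - r) (z0.2 + r) with hS
  have hScomp : IsCompact S := isCompact_Icc.prod isCompact_Icc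
  have hSmeas : MeasurableSet S := hScomp.measurableSet
  obtain ⟨S0, hS0⟩ := hScomp.exists_bound_of_continuousOn
    (f := fun p => dx (dx u) p) hc11.continuousOn
  have hz0S : z0 ∈ S := by
    refine ⟨⟨by linarith, by linarith⟩, by linarith, by linarith⟩
  have hS0n : 0 ≤ S0 := (norm_nonneg _).trans (hS0 z0 hz0S)
  set R := |z0.1| + |z0.2| + r with hR
  have hSR : ∀ p ∈ S, |p.1| ≤ R ∧ |p.2| ≤ R := by
    rintro ⟨x, y⟩ ⟨⟨h1, h2⟩, h3, h4⟩
    simp only at h1 h2 h3 h4 ⊢
    have g1 := abs_nonneg z0.1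
    have g2 := abs_nonneg z0.2
    have g3 := le_abs_self z0.1
    have g4 := le_abs_self z0.2
    have g5 := neg_abs_le z0.1
    have g6 := neg_abs_le z0.2
    constructor <;> rw [abs_le] <;> constructor <;> linarith
  set A2 := S0 * (S0 + 1) with hA2
  have hA2p : 0 ≤ A2 := by positivity
  set K' := K * ((a2 + 1) ^ 2 + 2 + 4 / a1 ^ 2) with hK'
  have hK'p : 0 ≤ K' := by positivity
  set C := (1 + A2) / c with hCd
  have hCp : 0 < C := by positivity
  -- the main claim
  have claim : ∀ ε : ℝ, 0 < ε → ∃ h0 : ℝ, 0 < h0 ∧ ∀ h : ℝ, 0 < h → h < h0 →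
      ∫ p in S, ((qx h (dx (dx u)) p) ^ 2 + (qx h (dx (dy u)) p) ^ 2) ≤ ε := by
    intro ε hε
    obtain ⟨η, hη1, hηc, hη0, hηle, hηR, hηE⟩ := hC R (ε / (C * (4 * K' + 1))) (by positivity)
    obtain ⟨R1, hR1⟩ := hηc.isCompact.isBounded.subset_closedBall (0 : ℝ × ℝ)
    set R2 := max R R1 with hR2
    -- thickening of the image of the support
    obtain ⟨σ, hσ, hσΩ⟩ : ∃ σ : ℝ, 0 < σ ∧ Metric.thickening σ (V u '' tsupport η) ⊆ Ω :=
      (hηc.isCompact.image hVc).exists_thickening_subset_open hΩ (by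
        rintro _ ⟨p, _, rfl⟩
        exact hVΩ p)
    set τ := min (min (a1 / 4) (1 / 2)) (min (σ / 2) (ρ / 4)) with hτ
    have hτp : 0 < τ := by
      rw [hτ]
      refine lt_min (lt_min ?_ ?_) (lt_min ?_ ?_) <;> linarith
    have hτ1 : τ ≤ a1 / 4 := (min_le_left _ _).trans (min_le_left _ _)
    have hτ2 : τ ≤ 1 / 2 := (min_le_left _ _).trans (min_le_right _ _)
    have hτ3 : τ ≤ σ / 2 := (min_le_right _ _).trans (min_le_left _ _)
    have hτ4 : τ ≤ ρ / 4 := (min_le_right _ _).trans (min_le_right _ _)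
    obtain ⟨ha, hha, H1⟩ := hU (dx u) R2 τ hdxu hτp
    obtain ⟨hb, hhb, H2⟩ := hU (dy u) R2 τ hdyu hτp
    obtain ⟨hc, hhc, H3⟩ := hV (dx (dx u)) R2 τ hc11 hτp
    refine ⟨min ha (min hb hc), lt_min hha (lt_min hhb hhc), ?_⟩
    intro h hh0 hh
    have hh1 : h < ha := hh.trans_le (min_le_left _ _)
    have hh2 : h < hb := hh.trans_le ((min_le_right _ _).trans (min_le_left _ _))
    have hh3 : h < hc := hh.trans_le ((min_le_right _ _).trans (min_le_right _ _))
    obtain ⟨hv2, -, -, -, -, hvx, hvy, -, -, hvxx, hvyy, hvxy, -, -, -⟩ := hA u h hu2 hh0.ne'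
    set v := qx h u with hv
    have hcalv := hA v 1 hv2 one_ne_zero
    have hdxv : ContDiff ℝ 1 (dx v) := hcalv.2.2.1
    have hdyv : ContDiff ℝ 1 (dy v) := hcalv.2.2.2.1
    have hD0 : ∀ p, 0 ≤ dx (dy v) p ^ 2 - dx (dx v) p * dy (dy v) p := by
      intro p
      rw [hvxx, hvyy]
      unfold qx
      exact (ptw _ _ _ _ h _ 0 (u11_pos u hu _) (u11_pos u hu _) (hu.2.2.2 _) (hu.2.2.2 _)).1
    -- distance of the gradient of `v` to the Hessian
    have hdist : ∀ p, |p.1| ≤ R2 → |p.2| ≤ R2 → dist (dx v p, dy v p) (V u p) ≤ τ := by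
      intro p hp1 hp2
      rw [Prod.dist_eq, Real.dist_eq, Real.dist_eq]
      refine max_le ?_ ?_
      · show |dx v p - dx (dx u) p| ≤ τ
        rw [hvx]
        exact (H1 h hh0 hh1 p hp1 hp2).1
      · show |dy v p - dx (dy u) p| ≤ τ
        rw [hvy]
        exact (H2 h hh0 hh2 p hp1 hp2).1
    -- the support
    have hsupt : ∀ p ∈ tsupport η, |p.1| ≤ R2 ∧ |p.2| ≤ R2 := by
      intro p h4
      have h5 := hR1 h4
      rw [Metric.mem_closedBall, dist_zero_right, Prod.norm_def, max_le_iff, Real.norm_eq_abs,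
        Real.norm_eq_abs] at h5
      exact ⟨h5.1.trans (le_max_right _ _), h5.2.trans (le_max_right _ _)⟩
    have hΩt : ∀ p ∈ tsupport η, (dx v p, dy v p) ∈ Ω := by
      intro p hp
      obtain ⟨g1, g2⟩ := hsupt p hp
      apply hσΩ
      rw [Metric.mem_thickening_iff]
      exact ⟨V u p, ⟨p, hp, rfl⟩, by linarith [hdist p g1 g2]⟩
    -- the energy
    set F : ℝ × ℝ → ℝ := fun p => η p ^ 2 * (dv (dx v p, dy v p) *
        (dx (dy v) p ^ 2 - dx (dx v) p * dy (dy v) p)) with hF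
    have hF0 : ∀ p, 0 ≤ F p := by
      intro p
      rw [hF]
      by_cases h4 : η p = 0
      · simp [h4]
      exact mul_nonneg (sq_nonneg _)
        (mul_nonneg (hdiv _ (hΩt p (subset_tsupport _ h4))).1 (hD0 p))
    have hFE : ∫ p, F p ≤ 4 * K' * ∫ p, (dx η p ^ 2 + dy η p ^ 2) := by
      refine hE v η a b Ω K' hv2 hη1 hηc hΩ haΩ hbΩ hK'p hΩt ?_
      intro p h4
      have hpt : p ∈ tsupport η := subset_tsupport _ h4
      obtain ⟨h6, h7⟩ := hsupt p hpt
      have hqΩ := hΩt p hpt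
      obtain ⟨d1, d2⟩ := hdiv _ hqΩ
      refine ⟨mul_nonneg d1 (hD0 p), ?_⟩
      by_cases hq : (dx v p ≤ a1 ∨ a2 ≤ dx v p)
      · obtain ⟨e1, e2⟩ := hzero _ hqΩ hq
        rw [e1, e2]
        have : (0 : ℝ) ≤ K' * ((dx a (dx v p, dy v p) + dy b (dx v p, dy v p)) *
            (dx (dy v) p ^ 2 - dx (dx v) p * dy (dy v) p)) :=
          mul_nonneg hK'p (mul_nonneg d1 (hD0 p))
        simpa using this
      · push Not at hq
        obtain ⟨q1, q2⟩ := hq
        have g1 := abs_le.1 (H1 h hh0 hh1 p h6 h7).1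
        have g2 := abs_le.1 (H3 h hh0 hh3 p h6 h7).1
        rw [hvx] at q1 q2
        have m1 : a1 / 2 ≤ dx (dx u) p := by linarith [g1.1, g1.2]
        have m2 : dx (dx u) p ≤ a2 + 1 := by linarith [g1.1, g1.2]
        have m3 : a1 / 2 ≤ dx (dx u) (p.1 + h, p.2) := by linarith [g1.1, g1.2, g2.1, g2.2]
        have m4 : dx (dx u) (p.1 + h, p.2) ≤ a2 + 1 := by linarith [g1.1, g1.2, g2.1, g2.2]
        have key : dx (dx v) p ^ 2 + 2 * dx (dy v) p ^ 2 + dy (dy v) p ^ 2 ≤
            ((a2 + 1) ^ 2 + 2 + 4 / a1 ^ 2) *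
              (dx (dy v) p ^ 2 - dx (dx v) p * dy (dy v) p) := by
          rw [hvxx, hvyy, hvxy]
          unfold qx
          exact ptw3 _ _ _ _ h _ a1 a2 ha1 m1 m3 m2 m4 (hu.2.2.2 _) (hu.2.2.2 _)
        calc (a (dx v p, dy v p) ^ 2 + b (dx v p, dy v p) ^ 2) *
              (dx (dx v) p ^ 2 + 2 * dx (dy v) p ^ 2 + dy (dy v) p ^ 2)
            ≤ (K * (dx a (dx v p, dy v p) + dy b (dx v p, dy v p))) *
              (((a2 + 1) ^ 2 + 2 + 4 / a1 ^ 2) *
                (dx (dy v) p ^ 2 - dx (dx v) p * dy (dy v) p)) :=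
              mul_le_mul d2 key (by positivity) (mul_nonneg hK d1)
          _ = K' * ((dx a (dx v p, dy v p) + dy b (dx v p, dy v p)) *
                (dx (dy v) p ^ 2 - dx (dx v) p * dy (dy v) p)) := by
              rw [hK']; ring
    have hcF : Continuous F := by
      have g1 : Continuous η := hη1.continuous
      have g2 : Continuous (fun p => (dx v p, dy v p)) := hdxv.continuous.prodMk hdyv.continuous
      have g4 : Continuous (dx (dy v)) := dx_cont _ hdyv
      have g5 : Continuous (dx (dx v)) := dx_cont _ hdxv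
      have g6 : Continuous (dy (dy v)) := dy_cont _ hdyv
      rw [continuous_iff_continuousAt]
      intro p
      by_cases hp : p ∈ tsupport η
      · have k1 : ContinuousAt dv (dx v p, dy v p) :=
          hdvc.continuousAt (hΩ.mem_nhds (hΩt p hp))
        have k2 : ContinuousAt (fun p => dv (dx v p, dy v p)) p :=
          ContinuousAt.comp (f := fun p => (dx v p, dy v p)) (g := dv) k1 g2.continuousAt
        exact (g1.continuousAt.pow 2).mul
          (k2.mul ((g4.continuousAt.pow 2).sub (g5.continuousAt.mul g6.continuousAt)))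
      · have k3 : (fun _ : ℝ × ℝ => (0 : ℝ)) =ᶠ[nhds p] F := by
          have : (tsupport η)ᶜ ∈ nhds p := (isClosed_tsupport η).isOpen_compl.mem_nhds hp
          filter_upwards [this] with p' hp'
          have : η p' = 0 := image_eq_zero_of_notMem_tsupport hp'
          rw [hF]
          simp [this]
        exact continuousAt_const.congr k3
    have hFc : HasCompactSupport F := by
      refine hηc.mono ?_
      intro p hp
      rw [Function.mem_support] at hp ⊢
      intro h4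
      apply hp
      rw [hF]
      simp [h4]
    have hFi : Integrable F := hcF.integrable_of_hasCompactSupport hFc
    have hq1 : Continuous (dx (dx v)) := dx_cont _ hdxv
    have hq2 : Continuous (dx (dy v)) := dx_cont _ hdyv
    have hle : ∫ p in S, ((qx h (dx (dx u)) p) ^ 2 + (qx h (dx (dy u)) p) ^ 2) ≤
        ∫ p in S, C * F p := by
      rw [← hvxx, ← hvxy]
      refine setIntegral_mono_on ?_ ?_ hSmeas ?_
      · exact ((hq1.pow 2).add (hq2.pow 2)).continuousOn.integrableOn_compact hScomp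
      · exact (continuous_const.mul hcF).continuousOn.integrableOn_compact hScomp
      · intro p hp
        obtain ⟨g1, g2⟩ := hSR p hp
        have g1' : |p.1| ≤ R2 := g1.trans (le_max_left _ _)
        have g2' : |p.2| ≤ R2 := g2.trans (le_max_left _ _)
        have g3 : η p = 1 := hηR p g1 g2
        have g4 : (dx v p, dy v p) ∈ Metric.ball (V u z0) ρ := by
          rw [Metric.mem_ball]
          calc dist (dx v p, dy v p) (V u z0)
              ≤ dist (dx v p, dy v p) (V u p) + dist (V u p) (V u z0) := dist_triangle _ _ _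
            _ < ρ := by linarith [hdist p g1' g2', hbox p hp]
        have g5 : c < dv (dx v p, dy v p) := (hρb g4).2
        have g6 : dx (dx u) p ≤ S0 := (le_abs_self _).trans (hS0 p hp)
        have g7 := (abs_le.1 (H3 h hh0 hh3 p g1' g2').1).2
        have g8 : dx (dx u) (p.1 + h, p.2) ≤ S0 + 1 := by linarith
        have g9 : dx (dy v) p ^ 2 + dx (dx v) p ^ 2 ≤
            (1 + A2) * (dx (dy v) p ^ 2 - dx (dx v) p * dy (dy v) p) := by
          rw [hvxx, hvyy]
          unfold qx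
          refine (ptw _ _ _ _ h _ A2 (u11_pos u hu _) (u11_pos u hu _) (hu.2.2.2 _)
            (hu.2.2.2 _)).2 ?_
          exact mul_le_mul g6 g8 (u11_pos u hu _).le hS0n
        have g17 := hD0 p
        rw [hF]
        simp only [g3, one_pow, one_mul]
        have g19 : (1 + A2) = C * c := by
          rw [hCd]; field_simp
        calc dx (dx v) p ^ 2 + dx (dy v) p ^ 2
            = dx (dy v) p ^ 2 + dx (dx v) p ^ 2 := add_comm _ _
          _ ≤ (1 + A2) * (dx (dy v) p ^ 2 - dx (dx v) p * dy (dy v) p) := g9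
          _ = C * (c * (dx (dy v) p ^ 2 - dx (dx v) p * dy (dy v) p)) := by
              rw [g19]; ring
          _ ≤ C * (dv (dx v p, dy v p) *
              (dx (dy v) p ^ 2 - dx (dx v) p * dy (dy v) p)) :=
              mul_le_mul_of_nonneg_left (mul_le_mul_of_nonneg_right g5.le g17) hCp.le
    refine hle.trans ?_
    have h4 : ∫ p in S, C * F p = C * ∫ p in S, F p := integral_const_mul _ _
    rw [h4]
    have h5 : ∫ p in S, F p ≤ ∫ p, F p :=
      setIntegral_le_integral hFi (Filter.Eventually.of_forall hF0)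
    have h6 : ∫ p, F p ≤ 4 * K' * (ε / (C * (4 * K' + 1))) :=
      hFE.trans (mul_le_mul_of_nonneg_left hηE (by positivity))
    calc C * ∫ p in S, F p ≤ C * (4 * K' * (ε / (C * (4 * K' + 1)))) :=
          mul_le_mul_of_nonneg_left (h5.trans h6) hCp.le
      _ = (4 * K') / (4 * K' + 1) * ε := by field_simp
      _ ≤ 1 * ε := by
          apply mul_le_mul_of_nonneg_right _ hε.le
          rw [div_le_one (by positivity)]
          linarith
      _ = ε := one_mul ε
  -- conclusion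
  have hqc : ∀ (g : ℝ × ℝ → ℝ) (h : ℝ), Continuous g → Continuous (qx h g) := by
    intro g h hg
    unfold qx
    have : Continuous (fun p : ℝ × ℝ => g (p.1 + h, p.2)) := hg.comp (by fun_prop)
    exact (this.sub hg).div_const h
  have hint : ∀ (g : ℝ × ℝ → ℝ), Continuous g → IntegrableOn g S := fun g hg =>
    hg.continuousOn.integrableOn_compact hScomp
  have T1 := hT (dx (dx u)) (z0.1 - r) (z0.1 + r) (z0.2 - r) (z0.2 + r) hc11 (by
    intro ε hε
    obtain ⟨h0, hh0, H⟩ := claim ε hε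
    refine ⟨h0, hh0, fun h h1 h2 => le_trans ?_ (H h h1 h2)⟩
    refine setIntegral_mono (hint _ ((hqc _ h hc11).pow 2))
      (hint _ (((hqc _ h hc11).pow 2).add ((hqc _ h hc12).pow 2))) ?_
    intro p
    simp only
    linarith [sq_nonneg (qx h (dx (dy u)) p)])
  have T2 := hT (dx (dy u)) (z0.1 - r) (z0.1 + r) (z0.2 - r) (z0.2 + r) hc12 (by
    intro ε hε
    obtain ⟨h0, hh0, H⟩ := claim ε hε
    refine ⟨h0, hh0, fun h h1 h2 => le_trans ?_ (H h h1 h2)⟩
    refine setIntegral_mono (hint _ ((hqc _ h hc12).pow 2))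
      (hint _ (((hqc _ h hc11).pow 2).add ((hqc _ h hc12).pow 2))) ?_
    intro p
    simp only
    linarith [sq_nonneg (qx h (dx (dx u)) p)])
  refine ⟨r, hr, ?_⟩
  intro x x' y hx hx' hy
  rw [abs_lt] at hx hx' hy
  have m1 : x ∈ Ioo (z0.1 - r) (z0.1 + r) := ⟨by linarith, by linarith⟩
  have m2 : x' ∈ Ioo (z0.1 - r) (z0.1 + r) := ⟨by linarith, by linarith⟩
  have m3 : y ∈ Ioo (z0.2 - r) (z0.2 + r) := ⟨by linarith, by linarith⟩
  exact Prod.ext (T1 x x' y m1 m2 m3) (T2 x x' y m1 m2 m3)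

end Pool.Agent.H629R2.EW
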