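import Pool.Agent.H629R2.EW.Stubs

set_option autoImplicit false

namespace Pool.Agent.H629R2.EW

open MeasureTheory Set Filter Topology Pool.Agent.H629R2.EU

namespace POTLaux

variable {E : Type*} [NormedAddCommGroup E] [NormedSpace ℝ E]

theorem ball_sub {K : Set (ℝ × ℝ)} (hK : IsCompact K) {z0 : ℝ × ℝ} (hz : z0 ∈ Kᶜ) :
    ∃ ε > 0, Metric.closedBall z0 ε ⊆ Kᶜ := by
  have h1 : Kᶜ ∈ 𝓝 z0 := hK.isClosed.isOpen_compl.mem_nhds hz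
  exact Metric.nhds_basis_closedBall.mem_iff.1 h1

theorem bd {K : Set (ℝ × ℝ)} (hK : IsCompact K) {z0 : ℝ × ℝ} {ε : ℝ}
    (hε : Metric.closedBall z0 ε ⊆ Kᶜ) {g : ℝ × ℝ → E} (hg : ContinuousOn g {0}ᶜ) :
    ∃ B : ℝ, ∀ z ∈ Metric.closedBall z0 ε, ∀ w ∈ K, ‖g (z - w)‖ ≤ B := by
  have hc : IsCompact ((fun p : (ℝ × ℝ) × (ℝ × ℝ) => p.1 - p.2) ''
      (Metric.closedBall z0 ε ×ˢ K)) :=
    ((isCompact_closedBall z0 ε).prod hK).image (by fun_prop)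
  obtain ⟨B, hB⟩ := hc.exists_bound_of_continuousOn (hg.mono (by
    rintro _ ⟨⟨z, w⟩, ⟨hz, hw⟩, rfl⟩
    intro h0
    have h1 : z = w := sub_eq_zero.1 h0
    exact hε hz (h1 ▸ hw)))
  exact ⟨B, fun z hz w hw => hB _ ⟨(z, w), ⟨hz, hw⟩, rfl⟩⟩

theorem cont {K : Set (ℝ × ℝ)} {z : ℝ × ℝ} (hz : z ∈ Kᶜ) {g : ℝ × ℝ → E}
    (hg : ContinuousOn g {0}ᶜ) : ContinuousOn (fun w => g (z - w)) K := by
  refine hg.comp (by fun_prop) ?_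
  intro w hw h0
  exact hz ((sub_eq_zero.1 h0) ▸ hw)

theorem rest {μ : Measure (ℝ × ℝ)} {K : Set (ℝ × ℝ)} (h0 : μ Kᶜ = 0) : μ.restrict K = μ :=
  Measure.restrict_eq_self_of_ae_mem (by rw [ae_iff]; exact h0)

theorem meas {μ : Measure (ℝ × ℝ)} {K : Set (ℝ × ℝ)} (hK : IsCompact K) (h0 : μ Kᶜ = 0)
    {z : ℝ × ℝ} (hz : z ∈ Kᶜ) {g : ℝ × ℝ → E} (hg : ContinuousOn g {0}ᶜ) :
    AEStronglyMeasurable (fun w => g (z - w)) μ := by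
  rw [← rest h0]
  exact (cont hz hg).aestronglyMeasurable hK.measurableSet

theorem inte {μ : Measure (ℝ × ℝ)} [IsFiniteMeasure μ] {K : Set (ℝ × ℝ)} (hK : IsCompact K)
    (h0 : μ Kᶜ = 0)
    {z : ℝ × ℝ} (hz : z ∈ Kᶜ) {g : ℝ × ℝ → E} (hg : ContinuousOn g {0}ᶜ) :
    Integrable (fun w => g (z - w)) μ := by
  have h1 : IntegrableOn (fun w => g (z - w)) K μ := (cont hz hg).integrableOn_compact hK
  rw [IntegrableOn, rest h0] at h1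
  exact h1

theorem contA {μ : Measure (ℝ × ℝ)} [IsFiniteMeasure μ] {K : Set (ℝ × ℝ)} (hK : IsCompact K)
    (h0 : μ Kᶜ = 0) {g : ℝ × ℝ → E} (hg : ContinuousOn g {0}ᶜ) :
    ContinuousOn (fun z => ∫ w, g (z - w) ∂μ) Kᶜ := by
  intro z0 hz0
  apply ContinuousAt.continuousWithinAt
  obtain ⟨ε, hε0, hε⟩ := ball_sub hK hz0
  obtain ⟨B, hB⟩ := bd hK hε hg
  have hnb : ∀ᶠ z in 𝓝 z0, z ∈ Metric.closedBall z0 ε := Metric.closedBall_mem_nhds z0 hε0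
  have haeK : ∀ᵐ w ∂μ, w ∈ K := by rw [ae_iff]; exact h0
  refine continuousAt_of_dominated (bound := fun _ => B) ?_ ?_ (integrable_const _) ?_
  · exact hnb.mono fun z hz => meas hK h0 (hε hz) hg
  · exact hnb.mono fun z hz => haeK.mono fun w hw => hB z hz w hw
  · refine haeK.mono fun w hw => ?_
    have h1 : z0 - w ∈ ({0} : Set (ℝ × ℝ))ᶜ := fun h => hz0 ((sub_eq_zero.1 h) ▸ hw)
    have h2 : ContinuousAt g (z0 - w) := hg.continuousAt (isOpen_compl_singleton.mem_nhds h1)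
    exact ContinuousAt.comp (f := fun x => x - w) h2 (by fun_prop)

theorem der {μ : Measure (ℝ × ℝ)} [IsFiniteMeasure μ] {K : Set (ℝ × ℝ)} (hK : IsCompact K)
    (h0 : μ Kᶜ = 0) {g : ℝ × ℝ → E} {g' : ℝ × ℝ → (ℝ × ℝ →L[ℝ] E)}
    (hg : ∀ x, x ≠ 0 → HasFDerivAt g (g' x) x) (hg' : ContinuousOn g' {0}ᶜ) {z0 : ℝ × ℝ}
    (hz0 : z0 ∈ Kᶜ) :
    HasFDerivAt (fun z => ∫ w, g (z - w) ∂μ) (∫ w, g' (z0 - w) ∂μ) z0 := by
  obtain ⟨ε, hε0, hε⟩ := ball_sub hK hz0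
  obtain ⟨B, hB⟩ := bd hK hε hg'
  have hgc : ContinuousOn g {0}ᶜ := fun x hx => (hg x hx).continuousAt.continuousWithinAt
  have hnb : Metric.closedBall z0 ε ∈ 𝓝 z0 := Metric.closedBall_mem_nhds z0 hε0
  have haeK : ∀ᵐ w ∂μ, w ∈ K := by rw [ae_iff]; exact h0
  refine hasFDerivAt_integral_of_dominated_of_fderiv_le (F' := fun z w => g' (z - w))
    (bound := fun _ => B) hnb ?_ (inte hK h0 hz0 hgc) (meas hK h0 hz0 hg') ?_
    (integrable_const _) ?_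
  · exact Filter.mem_of_superset hnb fun z hz => meas hK h0 (hε hz) hgc
  · exact haeK.mono fun w hw z hz => hB z hz w hw
  · refine haeK.mono fun w hw z hz => ?_
    have h1 : z - w ≠ 0 := fun h => hε hz ((sub_eq_zero.1 h) ▸ hw)
    have h2 := (hg _ h1).comp z ((hasFDerivAt_id z).sub_const w)
    rw [ContinuousLinearMap.comp_id] at h2
    exact h2

/-- `2 x / |z|^2` -/
noncomputable def p (x : ℝ × ℝ) : ℝ := 2 * x.1 / (x.1 ^ 2 + x.2 ^ 2)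
noncomputable def q (x : ℝ × ℝ) : ℝ := 2 * x.2 / (x.1 ^ 2 + x.2 ^ 2)

theorem Dpos {x : ℝ × ℝ} (hx : x ≠ 0) : 0 < x.1 ^ 2 + x.2 ^ 2 := by
  by_contra h
  apply hx
  have h1 : x.1 = 0 := by nlinarith [sq_nonneg x.1, sq_nonneg x.2]
  have h2 : x.2 = 0 := by nlinarith [sq_nonneg x.1, sq_nonneg x.2]
  exact Prod.ext h1 h2

noncomputable def fs : ℝ × ℝ →L[ℝ] ℝ := ContinuousLinearMap.fst ℝ ℝ ℝ
noncomputable def sn : ℝ × ℝ →L[ℝ] ℝ := ContinuousLinearMap.snd ℝ ℝ ℝ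

theorem hD (x : ℝ × ℝ) : HasFDerivAt (fun x : ℝ × ℝ => x.1 ^ 2 + x.2 ^ 2)
    ((2 * x.1) • fs + (2 * x.2) • sn) x := by
  have h1 : HasFDerivAt (fun x : ℝ × ℝ => x.1) fs x := hasFDerivAt_fst
  have h2 : HasFDerivAt (fun x : ℝ × ℝ => x.2) sn x := hasFDerivAt_snd
  have h3 : HasFDerivAt (fun x : ℝ × ℝ => x.1 * x.1 + x.2 * x.2)
    ((x.1 • fs + x.1 • fs) + (x.2 • sn + x.2 • sn)) x := (h1.mul h1).add (h2.mul h2)
  have e : (fun x : ℝ × ℝ => x.1 ^ 2 + x.2 ^ 2) = fun x : ℝ × ℝ => x.1 * x.1 + x.2 * x.2 := by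
    funext y; ring
  rw [e]
  refine h3.congr_fderiv ?_
  rw [two_mul, two_mul, add_smul, add_smul]

theorem hlog {x : ℝ × ℝ} (hx : x ≠ 0) :
    HasFDerivAt (fun x : ℝ × ℝ => Real.log (x.1 ^ 2 + x.2 ^ 2)) (p x • fs + q x • sn) x := by
  have h1 := (hD x).log (Dpos hx).ne'
  refine h1.congr_fderiv ?_
  rw [smul_add, smul_smul, smul_smul]
  congr 2 <;> simp only [p, q] <;> ring

theorem hinv {x : ℝ × ℝ} (hx : x ≠ 0) : HasFDerivAt (fun x : ℝ × ℝ => (x.1 ^ 2 + x.2 ^ 2)⁻¹)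
    ((-((x.1 ^ 2 + x.2 ^ 2) ^ 2)⁻¹) • ((2 * x.1) • fs + (2 * x.2) • sn)) x := by
  have h1 := (hasDerivAt_inv (Dpos hx).ne').comp_hasFDerivAt x (hD x)
  exact h1

theorem hp {x : ℝ × ℝ} (hx : x ≠ 0) : HasFDerivAt p
    ((2 / (x.1 ^ 2 + x.2 ^ 2)) • fs - (2 * x.1 / (x.1 ^ 2 + x.2 ^ 2) ^ 2) •
      ((2 * x.1) • fs + (2 * x.2) • sn)) x := by
  have h1 : HasFDerivAt (fun x : ℝ × ℝ => x.1) fs x := hasFDerivAt_fst
  have h2 := (h1.const_mul 2).mul (hinv hx)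
  have h3 : p = fun x : ℝ × ℝ => (2 * x.1) * (x.1 ^ 2 + x.2 ^ 2)⁻¹ := by
    funext y; simp only [p]; rw [div_eq_mul_inv]
  rw [h3]
  refine h2.congr_fderiv ?_
  rw [div_eq_mul_inv, div_eq_mul_inv]
  module

theorem hq {x : ℝ × ℝ} (hx : x ≠ 0) : HasFDerivAt q
    ((2 / (x.1 ^ 2 + x.2 ^ 2)) • sn - (2 * x.2 / (x.1 ^ 2 + x.2 ^ 2) ^ 2) •
      ((2 * x.1) • fs + (2 * x.2) • sn)) x := by
  have h1 : HasFDerivAt (fun x : ℝ × ℝ => x.2) sn x := hasFDerivAt_snd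
  have h2 := (h1.const_mul 2).mul (hinv hx)
  have h3 : q = fun x : ℝ × ℝ => (2 * x.2) * (x.1 ^ 2 + x.2 ^ 2)⁻¹ := by
    funext y; simp only [q]; rw [div_eq_mul_inv]
  rw [h3]
  refine h2.congr_fderiv ?_
  rw [div_eq_mul_inv, div_eq_mul_inv]
  module

/-- continuity of the derivatives -/
theorem cD : ContinuousOn (fun x : ℝ × ℝ => (x.1 ^ 2 + x.2 ^ 2)⁻¹) {0}ᶜ :=
  ContinuousOn.inv₀ (by fun_prop) (fun x hx => (Dpos hx).ne')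

theorem cp' : ContinuousOn (fun x : ℝ × ℝ => ((2 / (x.1 ^ 2 + x.2 ^ 2)) • fs -
    (2 * x.1 / (x.1 ^ 2 + x.2 ^ 2) ^ 2) • ((2 * x.1) • fs + (2 * x.2) • sn) : ℝ × ℝ →L[ℝ] ℝ))
    {0}ᶜ := by
  have h1 : ContinuousOn (fun x : ℝ × ℝ => (2 / (x.1 ^ 2 + x.2 ^ 2) : ℝ)) {0}ᶜ :=
    ContinuousOn.div (by fun_prop) (by fun_prop) (fun x hx => (Dpos hx).ne')
  have h2 : ContinuousOn (fun x : ℝ × ℝ => (2 * x.1 / (x.1 ^ 2 + x.2 ^ 2) ^ 2 : ℝ)) {0}ᶜ :=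
    ContinuousOn.div (by fun_prop) (by fun_prop) (fun x hx => (pow_pos (Dpos hx) 2).ne')
  have h3 : ContinuousOn (fun x : ℝ × ℝ => ((2 * x.1) • fs + (2 * x.2) • sn : ℝ × ℝ →L[ℝ] ℝ))
    {0}ᶜ := by fun_prop
  exact (h1.smul continuousOn_const).sub (h2.smul h3)

theorem cq' : ContinuousOn (fun x : ℝ × ℝ => ((2 / (x.1 ^ 2 + x.2 ^ 2)) • sn -
    (2 * x.2 / (x.1 ^ 2 + x.2 ^ 2) ^ 2) • ((2 * x.1) • fs + (2 * x.2) • sn) : ℝ × ℝ →L[ℝ] ℝ))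
    {0}ᶜ := by
  have h1 : ContinuousOn (fun x : ℝ × ℝ => (2 / (x.1 ^ 2 + x.2 ^ 2) : ℝ)) {0}ᶜ :=
    ContinuousOn.div (by fun_prop) (by fun_prop) (fun x hx => (Dpos hx).ne')
  have h2 : ContinuousOn (fun x : ℝ × ℝ => (2 * x.2 / (x.1 ^ 2 + x.2 ^ 2) ^ 2 : ℝ)) {0}ᶜ :=
    ContinuousOn.div (by fun_prop) (by fun_prop) (fun x hx => (pow_pos (Dpos hx) 2).ne')
  have h3 : ContinuousOn (fun x : ℝ × ℝ => ((2 * x.1) • fs + (2 * x.2) • sn : ℝ × ℝ →L[ℝ] ℝ))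
    {0}ᶜ := by fun_prop
  exact (h1.smul continuousOn_const).sub (h2.smul h3)

/-- a function on an open set with a continuous derivative -/
theorem c1 {F : Type*} [NormedAddCommGroup F] [NormedSpace ℝ F] {s : Set (ℝ × ℝ)} (hs : IsOpen s)
    {f : ℝ × ℝ → F} {f' : ℝ × ℝ → (ℝ × ℝ →L[ℝ] F)} (h : ∀ x ∈ s, HasFDerivAt f (f' x) x)
    {n : ℕ} (hc : ContDiffOn ℝ n f' s) : ContDiffOn ℝ (n + 1) f s := by
  rw [contDiffOn_succ_iff_fderiv_of_isOpen hs]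
  refine ⟨fun x hx => (h x hx).differentiableAt.differentiableWithinAt, ?_, ?_⟩
  · intro h2
    exact absurd h2 (by simp)
  · exact hc.congr fun x hx => (h x hx).fderiv

theorem harm {x : ℝ × ℝ} (hx : x ≠ 0) :
    ((2 / (x.1 ^ 2 + x.2 ^ 2)) • fs - (2 * x.1 / (x.1 ^ 2 + x.2 ^ 2) ^ 2) •
      ((2 * x.1) • fs + (2 * x.2) • sn) : ℝ × ℝ →L[ℝ] ℝ) (1, 0) +
    ((2 / (x.1 ^ 2 + x.2 ^ 2)) • sn - (2 * x.2 / (x.1 ^ 2 + x.2 ^ 2) ^ 2) •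
      ((2 * x.1) • fs + (2 * x.2) • sn) : ℝ × ℝ →L[ℝ] ℝ) (0, 1) = 0 := by
  have hd := (Dpos hx).ne'
  simp [fs, sn]
  field_simp
  ring

end POTLaux

open POTLaux in
theorem POTL_proof : POTL_stmt := by
  intro μ K hμ hK h0
  have := hμ
  have hop : IsOpen (Kᶜ) := hK.isClosed.isOpen_compl
  have haeK : ∀ᵐ w ∂μ, w ∈ K := by rw [ae_iff]; exact h0
  set p' : ℝ × ℝ → (ℝ × ℝ →L[ℝ] ℝ) := fun x => ((2 / (x.1 ^ 2 + x.2 ^ 2)) • fs -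
    (2 * x.1 / (x.1 ^ 2 + x.2 ^ 2) ^ 2) • ((2 * x.1) • fs + (2 * x.2) • sn)) with hp'
  set q' : ℝ × ℝ → (ℝ × ℝ →L[ℝ] ℝ) := fun x => ((2 / (x.1 ^ 2 + x.2 ^ 2)) • sn -
    (2 * x.2 / (x.1 ^ 2 + x.2 ^ 2) ^ 2) • ((2 * x.1) • fs + (2 * x.2) • sn)) with hq'
  set P : ℝ × ℝ → ℝ := fun z => ∫ w, p (z - w) ∂μ with hPd
  set Q : ℝ × ℝ → ℝ := fun z => ∫ w, q (z - w) ∂μ with hQd
  have hpc : ContinuousOn p {0}ᶜ := fun x hx => (hp hx).continuousAt.continuousWithinAt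
  have hqc : ContinuousOn q {0}ᶜ := fun x hx => (hq hx).continuousAt.continuousWithinAt
  have hL' : ContinuousOn (fun x => p x • fs + q x • sn) {0}ᶜ :=
    (hpc.smul continuousOn_const).add (hqc.smul continuousOn_const)
  have hF : ∀ z ∈ Kᶜ, HasFDerivAt
      (fun z : ℝ × ℝ => ∫ w : ℝ × ℝ, Real.log ((z - w).1 ^ 2 + (z - w).2 ^ 2) ∂μ)
      (P z • fs + Q z • sn) z := by
    intro z hz
    have h1 := der (g := fun x : ℝ × ℝ => Real.log (x.1 ^ 2 + x.2 ^ 2)) hK h0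
      (fun x hx => hlog hx) hL' hz
    refine h1.congr_fderiv ?_
    rw [integral_add ((inte hK h0 hz hpc).smul_const _) ((inte hK h0 hz hqc).smul_const _),
      integral_smul_const, integral_smul_const]
  have hP : ∀ z ∈ Kᶜ, HasFDerivAt P (∫ w, p' (z - w) ∂μ) z := fun z hz =>
    der hK h0 (fun x hx => hp hx) cp' hz
  have hQ : ∀ z ∈ Kᶜ, HasFDerivAt Q (∫ w, q' (z - w) ∂μ) z := fun z hz =>
    der hK h0 (fun x hx => hq hx) cq' hz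
  have hU' : ∀ z ∈ Kᶜ, HasFDerivAt (U μ) ((-(1 / 2) : ℝ) • (P z • fs + Q z • sn)) z :=
    fun z hz => (hF z hz).const_mul _
  have hcP : ContDiffOn ℝ 1 P Kᶜ := by
    have := c1 (n := 0) hop hP (contDiffOn_zero.2 (contA hK h0 cp'))
    simpa using this
  have hcQ : ContDiffOn ℝ 1 Q Kᶜ := by
    have := c1 (n := 0) hop hQ (contDiffOn_zero.2 (contA hK h0 cq'))
    simpa using this
  constructor
  · have h5 : ContDiffOn ℝ 1 (fun z => ((-(1 / 2) : ℝ) • (P z • fs + Q z • sn) :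
        ℝ × ℝ →L[ℝ] ℝ)) Kᶜ := by
      have hfs : ContDiffOn ℝ 1 (fun _ : ℝ × ℝ => fs) Kᶜ := contDiffOn_const
      have hsn : ContDiffOn ℝ 1 (fun _ : ℝ × ℝ => sn) Kᶜ := contDiffOn_const
      have hcc : ContDiffOn ℝ 1 (fun _ : ℝ × ℝ => (-(1 / 2) : ℝ)) Kᶜ := contDiffOn_const
      exact hcc.smul ((hcP.smul hfs).add (hcQ.smul hsn))
    have h6 := c1 (n := 1) hop hU' (by exact_mod_cast h5)
    have e : (((1 : ℕ) : WithTop ℕ∞) + 1) = 2 := by norm_num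
    rw [e] at h6
    exact h6
  · intro z hz
    have hdx : ∀ y ∈ Kᶜ, dx (U μ) y = -(1 / 2) * P y := by
      intro y hy
      unfold dx
      rw [(hU' y hy).fderiv]
      simp [fs, sn]
    have hdy : ∀ y ∈ Kᶜ, dy (U μ) y = -(1 / 2) * Q y := by
      intro y hy
      unfold dy
      rw [(hU' y hy).fderiv]
      simp [fs, sn]
    have e1 : dx (U μ) =ᶠ[𝓝 z] fun y => -(1 / 2) * P y := (hop.eventually_mem hz).mono hdx
    have e2 : dy (U μ) =ᶠ[𝓝 z] fun y => -(1 / 2) * Q y := (hop.eventually_mem hz).mono hdy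
    have e3 : dx (dx (U μ)) z = -(1 / 2) * (∫ w, p' (z - w) ∂μ) (1, 0) := by
      show fderiv ℝ (dx (U μ)) z (1, 0) = _
      rw [e1.fderiv_eq, ((hP z hz).const_mul _).fderiv]
      simp
    have e4 : dy (dy (U μ)) z = -(1 / 2) * (∫ w, q' (z - w) ∂μ) (0, 1) := by
      show fderiv ℝ (dy (U μ)) z (0, 1) = _
      rw [e2.fderiv_eq, ((hQ z hz).const_mul _).fderiv]
      simp
    have i1 := inte hK h0 hz cp'
    have i2 := inte hK h0 hz cq'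
    rw [e3, e4, ContinuousLinearMap.integral_apply i1, ContinuousLinearMap.integral_apply i2,
      ← mul_add, ← integral_add (i1.apply_continuousLinearMap _)
        (i2.apply_continuousLinearMap _)]
    have h7 : ∀ᵐ w ∂μ, p' (z - w) (1, 0) + q' (z - w) (0, 1) = 0 := haeK.mono fun w hw =>
      harm (fun h => hz ((sub_eq_zero.1 h) ▸ hw))
    rw [integral_congr_ae h7]
    simp

end Pool.Agent.H629R2.EW
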