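import Pool.Agent.H629R2.EW.Stubs

set_option autoImplicit false

namespace Pool.Agent.H629R2.EW

open MeasureTheory Set

namespace POTM

/-- squared distance -/
def d2 (z w : ℝ × ℝ) : ℝ := (z.1 - w.1) ^ 2 + (z.2 - w.2) ^ 2

theorem U_eq (μ : Measure (ℝ × ℝ)) (z : ℝ × ℝ) :
    U μ z = -(1 / 2) * ∫ w, Real.log (d2 z w) ∂μ := rfl

theorem meas (μ : Measure (ℝ × ℝ)) (z : ℝ × ℝ) :
    AEStronglyMeasurable (fun w => Real.log (d2 z w)) μ := by
  refine (Real.measurable_log.comp ?_).aestronglyMeasurable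
  unfold d2
  fun_prop

theorem ae_mem {μ : Measure (ℝ × ℝ)} {K : Set (ℝ × ℝ)} (hμ : μ Kᶜ = 0) : ∀ᵐ w ∂μ, w ∈ K := by
  rw [ae_iff]
  exact hμ

theorem d2_le {z w : ℝ × ℝ} {R0 : ℝ} (h : ‖w‖ ≤ R0) :
    d2 z w ≤ (|z.1| + R0) ^ 2 + (|z.2| + R0) ^ 2 := by
  have h1 : |w.1| ≤ R0 := (norm_fst_le w).trans h
  have h2 : |w.2| ≤ R0 := (norm_snd_le w).trans h
  have h3 : |z.1 - w.1| ≤ |z.1| + R0 := (abs_sub _ _).trans (by linarith)
  have h4 : |z.2 - w.2| ≤ |z.2| + R0 := (abs_sub _ _).trans (by linarith)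
  unfold d2
  have h5 : (z.1 - w.1) ^ 2 ≤ (|z.1| + R0) ^ 2 := sq_le_sq' (by linarith [neg_abs_le (z.1 - w.1)])
    ((le_abs_self _).trans h3)
  have h6 : (z.2 - w.2) ^ 2 ≤ (|z.2| + R0) ^ 2 := sq_le_sq' (by linarith [neg_abs_le (z.2 - w.2)])
    ((le_abs_self _).trans h4)
  linarith

theorem integ (μ : Measure (ℝ × ℝ)) [IsFiniteMeasure μ] (K : Set (ℝ × ℝ)) (hμ : μ Kᶜ = 0)
    (R0 : ℝ) (hR : ∀ w ∈ K, ‖w‖ ≤ R0) (z : ℝ × ℝ) (A : ℝ) (hA : 0 < A)
    (h : ∀ w ∈ K, A ≤ d2 z w) : Integrable (fun w => Real.log (d2 z w)) μ := by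
  refine Integrable.of_bound (meas μ z)
    (|Real.log A| + |Real.log ((|z.1| + R0) ^ 2 + (|z.2| + R0) ^ 2)|) ?_
  filter_upwards [ae_mem hμ] with w hw
  have h1 := h w hw
  have h2 := d2_le (z := z) (hR w hw)
  have h3 : 0 < d2 z w := lt_of_lt_of_le hA h1
  have h4 := Real.log_le_log hA h1
  have h5 := Real.log_le_log h3 h2
  rw [Real.norm_eq_abs, abs_le]
  constructor
  · have := neg_abs_le (Real.log A)
    have := abs_nonneg (Real.log ((|z.1| + R0) ^ 2 + (|z.2| + R0) ^ 2))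
    linarith
  · have := le_abs_self (Real.log ((|z.1| + R0) ^ 2 + (|z.2| + R0) ^ 2))
    have := abs_nonneg (Real.log A)
    linarith

theorem U_le (μ : Measure (ℝ × ℝ)) [IsFiniteMeasure μ] (K : Set (ℝ × ℝ)) (hμ : μ Kᶜ = 0)
    (R0 : ℝ) (hR : ∀ w ∈ K, ‖w‖ ≤ R0) (z : ℝ × ℝ) (A : ℝ) (hA : 0 < A)
    (h : ∀ w ∈ K, A ≤ d2 z w) : U μ z ≤ -(1 / 2) * (Real.log A * μ.real univ) := by
  rw [U_eq]
  have h1 : ∫ _w : ℝ × ℝ, Real.log A ∂μ ≤ ∫ w, Real.log (d2 z w) ∂μ := by
    refine integral_mono_ae (integrable_const _) (integ μ K hμ R0 hR z A hA h) ?_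
    filter_upwards [ae_mem hμ] with w hw
    exact Real.log_le_log hA (h w hw)
  rw [integral_const, smul_eq_mul] at h1
  linarith

end POTM

open POTM in
theorem POTM_proof : POTM_stmt := by
  intro μ K hfin hK hμ hne hpos
  have := hfin
  -- the mass
  have hc0 : 0 < μ.real univ := by
    rw [measureReal_def]
    refine ENNReal.toReal_pos ?_ (measure_ne_top μ univ)
    rw [Ne, Measure.measure_univ_eq_zero]
    exact hne
  have hKne : K.Nonempty := by
    by_contra hc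
    rw [Set.not_nonempty_iff_eq_empty] at hc
    rw [hc, Set.compl_empty] at hμ
    exact hne (Measure.measure_univ_eq_zero.mp hμ)
  obtain ⟨R0, hR⟩ := hK.isBounded.exists_norm_le
  obtain ⟨w0, hw0K, hw0⟩ := hK.exists_isMinOn hKne (continuous_fst.continuousOn)
  have hk : ∀ w ∈ K, w0.1 ≤ w.1 := fun w hw => hw0 hw
  have hk1 : 0 < w0.1 := hpos w0 hw0K
  have hk1R : w0.1 ≤ R0 := ((le_abs_self _).trans (norm_fst_le w0)).trans (hR w0 hw0K)
  generalize w0.1 = k at hk hk1 hk1R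
  -- lower bound for the distances from the line `z.1 = k / 2`
  have hPA : ∀ t : ℝ, ∀ w ∈ K, (k / 2) ^ 2 ≤ d2 (k / 2, t) w := by
    intro t w hw
    have h1 := hk w hw
    unfold d2
    have h2 : (k / 2) ^ 2 ≤ (k / 2 - w.1) ^ 2 := by nlinarith
    have h3 : 0 ≤ (t - w.2) ^ 2 := sq_nonneg _
    show (k / 2) ^ 2 ≤ (k / 2 - w.1) ^ 2 + (t - w.2) ^ 2
    linarith
  have hk2 : 0 < (k / 2) ^ 2 := by positivity
  have hbdd : BddAbove (Set.range fun t : ℝ => U μ (k / 2, t)) := by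
    refine ⟨-(1 / 2) * (Real.log ((k / 2) ^ 2) * μ.real univ), ?_⟩
    rintro _ ⟨t, rfl⟩
    exact U_le μ K hμ R0 hR _ _ hk2 (hPA t)
  obtain ⟨M, hM⟩ : ∃ M : ℝ, M = ⨆ t : ℝ, U μ (k / 2, t) := ⟨_, rfl⟩
  have hPM : ∀ t : ℝ, U μ (k / 2, t) ≤ M := fun t => by
    rw [hM]
    exact le_ciSup hbdd t
  -- the radius
  obtain ⟨E, hE⟩ : ∃ E : ℝ, E = Real.exp (2 * (1 - M) / μ.real univ) := ⟨_, rfl⟩
  have hE0 : 0 < E := by rw [hE]; exact Real.exp_pos _
  obtain ⟨R, hRdef⟩ : ∃ R : ℝ, R = R0 + E + 1 := ⟨_, rfl⟩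
  have hR00 : 0 < R0 := by linarith
  have hR0' : 0 < R := by linarith
  have hfar : ∀ z : ℝ × ℝ, R < |z.2| → U μ z ≤ M - 1 := by
    intro z hz
    have h1 : ∀ w ∈ K, E ≤ d2 z w := by
      intro w hw
      have h2 : |w.2| ≤ R0 := (norm_snd_le w).trans (hR w hw)
      have h3 : E + 1 ≤ |z.2 - w.2| := by
        have := abs_sub_abs_le_abs_sub z.2 w.2
        linarith
      have h4 : (E + 1) ^ 2 ≤ (z.2 - w.2) ^ 2 := by
        rw [← sq_abs (z.2 - w.2)]
        exact pow_le_pow_left₀ (by linarith) h3 2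
      unfold d2
      nlinarith [sq_nonneg (z.1 - w.1), sq_nonneg E]
    have h2 := U_le μ K hμ R0 hR z E hE0 h1
    rw [hE, Real.log_exp, div_mul_cancel₀ _ hc0.ne'] at h2
    linarith
  -- the gain
  obtain ⟨B, hB⟩ : ∃ B : ℝ, B = (k / 2 + R0) ^ 2 + (R + R0) ^ 2 := ⟨_, rfl⟩
  have hB0 : 0 < B := by rw [hB]; positivity
  obtain ⟨r, hr⟩ : ∃ r : ℝ, r = 1 + 5 * k ^ 2 / 16 / B := ⟨_, rfl⟩
  have hr1 : 1 < r := by rw [hr]; have : 0 < 5 * k ^ 2 / 16 / B := by positivity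
                         linarith
  have hlr : 0 < Real.log r := Real.log_pos hr1
  have hg : 0 < 1 / 2 * (Real.log r * μ.real univ) := by positivity
  obtain ⟨m, hm⟩ : ∃ m : ℝ, m = M - min (1 / 2 * (Real.log r * μ.real univ)) 1 := ⟨_, rfl⟩
  have hmin : 0 < min (1 / 2 * (Real.log r * μ.real univ)) 1 := lt_min hg one_pos
  have hmin1 : min (1 / 2 * (Real.log r * μ.real univ)) 1 ≤ 1 / 2 * (Real.log r * μ.real univ) :=
    min_le_left _ _
  have hmin2 : min (1 / 2 * (Real.log r * μ.real univ)) 1 ≤ 1 := min_le_right _ _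
  have hmM : m < ⨆ t : ℝ, U μ (k / 2, t) := by rw [← hM]; linarith
  obtain ⟨t0, ht0⟩ := exists_lt_of_lt_ciSup hmM
  obtain ⟨T, hT⟩ : ∃ T : ℝ, T = Real.exp (-2 * m / μ.real univ) := ⟨_, rfl⟩
  have hT0 : 0 < T := by rw [hT]; exact Real.exp_pos _
  refine ⟨k / 4, R0 + T + 1, m, by positivity, by linarith, ?_, (k / 2, t0), ?_, by positivity,
    ht0⟩
  · rintro z (hz | hz) hz0
    · rcases lt_or_ge R |z.2| with hzR | hzR
      · have := hfar z hzR
        linarith
      · -- comparison with the point `(k / 2, z.2)`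
        have hA : ∀ w ∈ K, (k / 2) ^ 2 ≤ d2 z w := by
          intro w hw
          have h1 := hk w hw
          unfold d2
          nlinarith [sq_nonneg (z.2 - w.2)]
        have hI1 := integ μ K hμ R0 hR z _ hk2 hA
        have hI2 := integ μ K hμ R0 hR (k / 2, z.2) _ hk2 (hPA z.2)
        have hcmp : ∫ w, (Real.log (d2 (k / 2, z.2) w) + Real.log r) ∂μ ≤
            ∫ w, Real.log (d2 z w) ∂μ := by
          refine integral_mono_ae (hI2.add (integrable_const _)) hI1 ?_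
          filter_upwards [ae_mem hμ] with w hw
          have h1 := hk w hw
          have h2 := hPA z.2 w hw
          have h3 : 0 < d2 (k / 2, z.2) w := lt_of_lt_of_le hk2 h2
          rw [← Real.log_mul h3.ne' (by linarith)]
          refine Real.log_le_log (by positivity) ?_
          have h4 : d2 (k / 2, z.2) w ≤ B := by
            refine (d2_le (hR w hw)).trans ?_
            rw [hB]
            have h5 : |k / 2| = k / 2 := abs_of_pos (by positivity)
            have h6 : (|z.2| + R0) ^ 2 ≤ (R + R0) ^ 2 :=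
              pow_le_pow_left₀ (by positivity) (by linarith) 2
            show (|k / 2| + R0) ^ 2 + (|z.2| + R0) ^ 2 ≤ _
            rw [h5]
            linarith
          have h5 : d2 (k / 2, z.2) w * r ≤ d2 (k / 2, z.2) w + 5 * k ^ 2 / 16 := by
            rw [hr, mul_add, mul_one, mul_div_assoc']
            have : d2 (k / 2, z.2) w * (5 * k ^ 2 / 16) / B ≤ 5 * k ^ 2 / 16 := by
              rw [div_le_iff₀ hB0]
              have := mul_le_mul_of_nonneg_right h4 (show (0:ℝ) ≤ 5 * k ^ 2 / 16 by positivity)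
              linarith
            linarith
          refine h5.trans ?_
          show (k / 2 - w.1) ^ 2 + (z.2 - w.2) ^ 2 + 5 * k ^ 2 / 16 ≤
            (z.1 - w.1) ^ 2 + (z.2 - w.2) ^ 2
          nlinarith
        rw [integral_add hI2 (integrable_const _), integral_const, smul_eq_mul] at hcmp
        have h7 := hPM z.2
        rw [U_eq] at h7 ⊢
        linarith
    · have h1 : ∀ w ∈ K, T ≤ d2 z w := by
        intro w hw
        have h2 : |w.1| ≤ R0 := (norm_fst_le w).trans (hR w hw)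
        have h3 : T + 1 ≤ z.1 - w.1 := by
          have := le_abs_self w.1
          linarith
        have h4 : (T + 1) ^ 2 ≤ (z.1 - w.1) ^ 2 := pow_le_pow_left₀ (by linarith) h3 2
        unfold d2
        nlinarith [sq_nonneg (z.2 - w.2), sq_nonneg T]
      have h2 := U_le μ K hμ R0 hR z T hT0 h1
      rw [hT, Real.log_exp, div_mul_cancel₀ _ hc0.ne'] at h2
      linarith
  · intro hmem
    have := hk _ hmem
    simp only at this
    linarith

end Pool.Agent.H629R2.EW
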